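import Mathlib

/-!
# Slow (a,b)-continued fraction maps: laps and entropy
-/

set_option autoImplicit false

namespace Pool.Agent.R660.CF

open Filter Topology Set

/-- The slow `(a,b)`-continued fraction map, on the real line: `x + 1` for `x < a`, `-1/x` for
`a ≤ x < b`, `x - 1` for `x ≥ b`.  (The value at `x = 0`, which is `∞` when `0` is in the middle
branch, plays no role, since `0` is one of the points `a, 0, b`.) -/
noncomputable def f (a b : ℝ) (x : ℝ) : ℝ :=
  if x < a then x + 1 else if x < b then -1 / x else x - 1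

/-- The parameter set `𝒫`. -/
def InP (a b : ℝ) : Prop := a ≤ 0 ∧ 0 ≤ b ∧ 1 ≤ b - a ∧ -(a * b) ≤ 1

/-- The set `D_n` of the points whose orbit hits one of the points `a`, `0`, `b` at a time
`j < n`, in the coordinate `x` of `ℝ` (the homeomorphism `k` maps it to the set in `(-1, 1)`). -/
def D (a b : ℝ) (n : ℕ) : Set ℝ :=
  {x | ∃ j < n, (f a b)^[j] x = a ∨ (f a b)^[j] x = 0 ∨ (f a b)^[j] x = b}

/-- The number `ℓ_n` of laps of `f^n`, i.e. of connected components of `ℝ \ D_n`. -/
noncomputable def laps (a b : ℝ) (n : ℕ) : ℕ := (D a b n).ncard + 1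

/-- `h` is the topological entropy of `f_{a,b}`: the limit of `log ℓ_n / n`. -/
def IsEntropy (a b h : ℝ) : Prop :=
  Tendsto (fun n : ℕ => Real.log (laps a b n) / n) atTop (𝓝 h)

/-- points whose orbit hits `E` before time `n` -/
def DE (a b : ℝ) (E : Finset ℝ) (n : ℕ) : Set ℝ := {x | ∃ j < n, (f a b)^[j] x ∈ E}

variable {a b : ℝ}

theorem f_lt {x : ℝ} (h : x < a) : f a b x = x + 1 := by simp [f, h]

theorem f_mid {x : ℝ} (h : a ≤ x) (h' : x < b) : f a b x = -1 / x := by
  simp [f, not_lt.2 h, h']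

theorem f_ge (hab : InP a b) {x : ℝ} (h : b ≤ x) : f a b x = x - 1 := by
  obtain ⟨h1, h2, h3, h4⟩ := hab
  have : ¬ x < a := by linarith
  simp [f, this, not_lt.2 h]

theorem D_succ (a b : ℝ) (n : ℕ) (x : ℝ) :
    x ∈ D a b (n + 1) ↔ (x = a ∨ x = 0 ∨ x = b) ∨ f a b x ∈ D a b n := by
  constructor
  · rintro ⟨j, hj, h⟩
    rcases j with _ | j
    · exact Or.inl h
    · right
      exact ⟨j, by omega, by simpa [Function.iterate_succ_apply] using h⟩
  · rintro (h | ⟨j, hj, h⟩)
    · exact ⟨0, by omega, h⟩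
    · exact ⟨j + 1, by omega, by simpa [Function.iterate_succ_apply] using h⟩

theorem D_mono (a b : ℝ) {m n : ℕ} (h : m ≤ n) : D a b m ⊆ D a b n := by
  rintro x ⟨j, hj, h'⟩
  exact ⟨j, by omega, h'⟩

theorem D_zero (a b : ℝ) : D a b 0 = ∅ := by
  ext x; simp [D]

/-- one step -/
theorem f_step (hab : InP a b) {x y : ℝ} (hxy : x < y) (ha : a ∉ Icc x y) (h0 : (0 : ℝ) ∉ Icc x y)
    (hb : b ∉ Icc x y) :
    f a b x < f a b y ∧ ∀ w ∈ Icc (f a b x) (f a b y), ∃ z ∈ Icc x y, f a b z = w := by
  have hab' := hab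
  obtain ⟨h1, h2, h3, h4⟩ := hab'
  rw [mem_Icc, not_and_or, not_le, not_le] at ha h0 hb
  rcases lt_or_ge y a with hya | hya
  · have hxa : x < a := by linarith
    rw [f_lt hya, f_lt hxa]
    refine ⟨by linarith, fun w hw => ⟨w - 1, ⟨by linarith [hw.1], by linarith [hw.2]⟩, ?_⟩⟩
    rw [f_lt (by linarith [hw.2])]; ring
  · have hxa : a < x := by
      rcases ha with h | h
      · exact h
      · exact absurd h (not_lt.2 hya)
    rcases lt_or_ge y b with hyb | hyb
    · have hxb : x < b := by linarith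
      rw [f_mid hya hyb, f_mid hxa.le hxb]
      rcases h0 with h0 | h0
      · -- 0 < x
        have hy0 : 0 < y := by linarith
        have e1 : -1 / x < -1 / y := by
          rw [neg_div, neg_div, neg_lt_neg_iff]
          exact one_div_lt_one_div_of_lt h0 hxy
        refine ⟨e1, fun w hw => ?_⟩
        have hy1 : -1 / y < 0 := by
          rw [neg_div]; linarith [one_div_pos.2 hy0]
        have hw0 : w < 0 := lt_of_le_of_lt hw.2 hy1
        have hz1 : x ≤ -1 / w := by
          rw [le_div_iff_of_neg hw0]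
          have := hw.1
          rw [div_le_iff₀ h0] at this
          nlinarith
        have hz2 : -1 / w ≤ y := by
          rw [div_le_iff_of_neg hw0]
          have := hw.2
          rw [le_div_iff₀ hy0] at this
          nlinarith
        refine ⟨-1 / w, ⟨hz1, hz2⟩, ?_⟩
        rw [f_mid (by linarith) (by linarith)]
        field_simp
      · have hx0 : x < 0 := by linarith
        have e1 : -1 / x < -1 / y := by
          rw [neg_div, neg_div, neg_lt_neg_iff]
          exact one_div_lt_one_div_of_neg_of_lt h0 hxy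
        refine ⟨e1, fun w hw => ?_⟩
        have hx1 : 0 < -1 / x := div_pos_of_neg_of_neg (by norm_num) hx0
        have hw0 : 0 < w := lt_of_lt_of_le hx1 hw.1
        have hz1 : x ≤ -1 / w := by
          rw [le_div_iff₀ hw0]
          have := hw.1
          rw [div_le_iff_of_neg hx0] at this
          nlinarith
        have hz2 : -1 / w ≤ y := by
          rw [div_le_iff₀ hw0]
          have := hw.2
          rw [le_div_iff_of_neg h0] at this
          nlinarith
        refine ⟨-1 / w, ⟨hz1, hz2⟩, ?_⟩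
        rw [f_mid (by linarith) (by linarith)]
        field_simp
    · have hxb : b < x := by
        rcases hb with h | h
        · exact h
        · exact absurd h (not_lt.2 hyb)
      rw [f_ge hab hyb, f_ge hab hxb.le]
      refine ⟨by linarith, fun w hw => ⟨w + 1, ⟨by linarith [hw.1], by linarith [hw.2]⟩, ?_⟩⟩
      rw [f_ge hab (by linarith [hw.1])]; ring

theorem mono_of_avoid (hab : InP a b) (n : ℕ) : ∀ x y : ℝ, x < y →
    (∀ z ∈ Icc x y, z ∉ D a b n) → (f a b)^[n] x < (f a b)^[n] y := by
  induction n with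
  | zero => intro x y h _; simpa using h
  | succ n ih =>
    intro x y hxy h
    rw [Function.iterate_succ_apply, Function.iterate_succ_apply]
    have k : ∀ z ∈ Icc x y, ¬ (z = a ∨ z = 0 ∨ z = b) ∧ f a b z ∉ D a b n := by
      intro z hz
      have := h z hz
      rw [D_succ] at this
      push Not at this
      push Not
      exact this
    obtain ⟨h1, h2⟩ := f_step hab hxy (fun hh => (k a hh).1 (Or.inl rfl))
      (fun hh => (k 0 hh).1 (Or.inr (Or.inl rfl))) (fun hh => (k b hh).1 (Or.inr (Or.inr rfl)))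
    refine ih _ _ h1 fun w hw => ?_
    obtain ⟨z, hz, rfl⟩ := h2 w hw
    exact (k z hz).2

/-- a set separated by the points of a finite set is finite -/
theorem separated {D S : Set ℝ} (hD : D.Finite)
    (h : ∀ x ∈ S, ∀ y ∈ S, x < y → ∃ z ∈ D, x ≤ z ∧ z < y) :
    S.Finite ∧ S.ncard ≤ D.ncard + 1 := by
  have hmaps : ∀ x ∈ S, (fun x => (D ∩ Iio x).ncard) x ∈ (Finset.range (D.ncard + 1) : Set ℕ) := by
    intro x _
    simp only [Finset.coe_range, mem_Iio]
    have : (D ∩ Iio x).ncard ≤ D.ncard := ncard_le_ncard inter_subset_left hD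
    omega
  have hlt : ∀ x ∈ S, ∀ y ∈ S, x < y → (D ∩ Iio x).ncard < (D ∩ Iio y).ncard := by
    intro x hx y hy hxy
    obtain ⟨z, hz, h1, h2⟩ := h x hx y hy hxy
    apply ncard_lt_ncard _ (hD.subset inter_subset_left)
    refine ⟨fun w hw => ⟨hw.1, lt_trans hw.2 hxy⟩, fun hh => ?_⟩
    have := (hh ⟨hz, h2⟩ : z ∈ D ∩ Iio x).2
    exact absurd this (not_lt.2 h1)
  have hinj : InjOn (fun x => (D ∩ Iio x).ncard) S := by
    intro x hx y hy hxy
    rcases lt_trichotomy x y with h' | h' | h'
    · exact absurd hxy (hlt x hx y hy h').ne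
    · exact h'
    · exact absurd hxy.symm (hlt y hy x hx h').ne
  refine ⟨Set.Finite.of_finite_image ((Finset.range (D.ncard + 1)).finite_toSet.subset ?_) hinj, ?_⟩
  · rintro _ ⟨x, hx, rfl⟩
    exact hmaps x hx
  · have := ncard_le_ncard_of_injOn _ hmaps hinj (Finset.range (D.ncard + 1)).finite_toSet
    rwa [ncard_coe_finset, Finset.card_range] at this

/-- solutions of `f^n x = e` outside `D_n` -/
def Sol (a b : ℝ) (n : ℕ) (e : ℝ) : Set ℝ := {x | x ∉ D a b n ∧ (f a b)^[n] x = e}

theorem Sol_aux (hab : InP a b) (n : ℕ) (hD : (D a b n).Finite) (e : ℝ) :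
    (Sol a b n e).Finite ∧ (Sol a b n e).ncard ≤ laps a b n := by
  apply separated hD
  rintro x ⟨hx, hx'⟩ y ⟨hy, hy'⟩ hxy
  by_contra hcon
  push Not at hcon
  have := mono_of_avoid hab n x y hxy (by
    intro z hz hzD
    have h1 := hcon z hzD hz.1
    have h2 : z = y := le_antisymm hz.2 h1
    exact hy (h2 ▸ hzD))
  rw [hx', hy'] at this
  exact lt_irrefl _ this

theorem D_finite (hab : InP a b) (n : ℕ) : (D a b n).Finite := by
  induction n with
  | zero => rw [D_zero]; exact finite_empty
  | succ n ih =>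
    have hsub : D a b (n + 1) ⊆ D a b n ∪ (Sol a b n a ∪ (Sol a b n 0 ∪ Sol a b n b)) := by
      rintro x ⟨j, hj, h⟩
      by_cases hx : x ∈ D a b n
      · exact Or.inl hx
      · right
        have : j = n := by
          by_contra hne
          exact hx ⟨j, by omega, h⟩
        subst this
        rcases h with h | h | h
        · exact Or.inl ⟨hx, h⟩
        · exact Or.inr (Or.inl ⟨hx, h⟩)
        · exact Or.inr (Or.inr ⟨hx, h⟩)
    refine Finite.subset (ih.union ((Sol_aux hab n ih a).1.union
      ((Sol_aux hab n ih 0).1.union (Sol_aux hab n ih b).1))) hsub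

theorem Sol_finite (hab : InP a b) (n : ℕ) (e : ℝ) : (Sol a b n e).Finite :=
  (Sol_aux hab n (D_finite hab n) e).1

theorem Sol_card (hab : InP a b) (n : ℕ) (e : ℝ) : (Sol a b n e).ncard ≤ laps a b n :=
  (Sol_aux hab n (D_finite hab n) e).2

theorem laps_mono (hab : InP a b) {m n : ℕ} (h : m ≤ n) : laps a b m ≤ laps a b n := by
  unfold laps
  exact Nat.succ_le_succ (ncard_le_ncard (D_mono a b h) (D_finite hab n))

theorem laps_pos (a b : ℝ) (n : ℕ) : 1 ≤ laps a b n := Nat.le_add_left _ _

/-- union over pairs -/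
theorem union_bound (hab : InP a b) {U : Set ℝ} {n : ℕ} (t : Finset (ℕ × ℝ)) (N : ℕ)
    (ht : ∀ p ∈ t, p.1 ≤ N)
    (hU : U ⊆ D a b n ∪ ⋃ p ∈ t, Sol a b p.1 p.2) :
    U.Finite ∧ U.ncard ≤ (D a b n).ncard + t.card * laps a b N := by
  classical
  have hfin : (⋃ p ∈ t, Sol a b p.1 p.2).Finite :=
    t.finite_toSet.biUnion fun p _ => Sol_finite hab p.1 p.2
  have hfin2 := (D_finite hab n).union hfin
  refine ⟨hfin2.subset hU, ?_⟩
  have h1 : (⋃ p ∈ t, Sol a b p.1 p.2).ncard ≤ t.card * laps a b N := by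
    have e : (⋃ p ∈ t, Sol a b p.1 p.2) =
        ((t.biUnion fun p => (Sol_finite hab p.1 p.2).toFinset : Finset ℝ) : Set ℝ) := by
      ext x; simp
    rw [e, ncard_coe_finset]
    refine Finset.card_biUnion_le_card_mul _ _ _ fun p hp => ?_
    rw [← ncard_eq_toFinset_card _ (Sol_finite hab p.1 p.2)]
    exact (Sol_card hab p.1 p.2).trans (laps_mono hab (ht p hp))
  calc U.ncard ≤ (D a b n ∪ ⋃ p ∈ t, Sol a b p.1 p.2).ncard := ncard_le_ncard hU hfin2
    _ ≤ (D a b n).ncard + (⋃ p ∈ t, Sol a b p.1 p.2).ncard := ncard_union_le _ _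
    _ ≤ _ := by omega

theorem laps_submul (hab : InP a b) (m n : ℕ) : laps a b (m + n) ≤ laps a b m * laps a b n := by
  classical
  have hD := D_finite hab n
  have h := union_bound hab (U := D a b (m + n)) (n := m)
    (hD.toFinset.image fun e => (m, e)) m (by
      intro p hp
      rw [Finset.mem_image] at hp
      obtain ⟨e, _, rfl⟩ := hp
      exact le_rfl) (by
      rintro x ⟨j, hj, h⟩
      by_cases hx : x ∈ D a b m
      · exact Or.inl hx
      · right
        have hjm : m ≤ j := by
          by_contra hne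
          exact hx ⟨j, by omega, h⟩
        rw [mem_iUnion₂]
        refine ⟨(m, (f a b)^[m] x), ?_, hx, rfl⟩
        rw [Finset.mem_image]
        refine ⟨_, ?_, rfl⟩
        rw [Set.Finite.mem_toFinset]
        refine ⟨j - m, by omega, ?_⟩
        rw [← Function.iterate_add_apply, show j - m + m = j by omega]
        exact h)
  have h2 : (hD.toFinset.image fun e => (m, e)).card ≤ (D a b n).ncard := by
    refine Finset.card_image_le.trans ?_
    rw [← ncard_eq_toFinset_card _ hD]
  have h3 : (hD.toFinset.image fun e => (m, e)).card * laps a b m ≤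
      (D a b n).ncard * laps a b m := Nat.mul_le_mul_right _ h2
  unfold laps at *
  nlinarith [h.2]

theorem DE_bound (hab : InP a b) (E : Finset ℝ) (n : ℕ) :
    (DE a b E n).Finite ∧ (DE a b E n).ncard + 1 ≤ (1 + E.card * n) * laps a b n := by
  classical
  have h := union_bound hab (U := DE a b E n) (n := n) (Finset.range n ×ˢ E) n (by
      intro p hp
      rw [Finset.mem_product, Finset.mem_range] at hp
      omega) (by
      rintro x ⟨j, hj, h⟩
      by_cases hx : x ∈ D a b n
      · exact Or.inl hx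
      · right
        rw [mem_iUnion₂]
        refine ⟨(j, (f a b)^[j] x), ?_, fun hh => hx (D_mono a b hj.le hh), rfl⟩
        rw [Finset.mem_product, Finset.mem_range]
        exact ⟨hj, h⟩)
  refine ⟨h.1, ?_⟩
  have h2 := h.2
  rw [Finset.card_product, Finset.card_range] at h2
  unfold laps at *
  nlinarith [h2]

theorem subadd (hab : InP a b) : Subadditive fun n => Real.log (laps a b n) := by
  intro m n
  have h1 : (0 : ℝ) < laps a b m := by exact_mod_cast laps_pos a b m
  have h2 : (0 : ℝ) < laps a b n := by exact_mod_cast laps_pos a b n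
  rw [← Real.log_mul h1.ne' h2.ne']
  apply Real.log_le_log
  · exact_mod_cast laps_pos a b (m + n)
  · exact_mod_cast laps_submul hab m n

theorem log_laps_nonneg (a b : ℝ) (n : ℕ) : 0 ≤ Real.log (laps a b n) :=
  Real.log_nonneg (by exact_mod_cast laps_pos a b n)

/-- the entropy exists -/
theorem exists_entropy (hab : InP a b) : ∃ h, IsEntropy a b h := by
  refine ⟨_, (subadd hab).tendsto_lim ⟨0, ?_⟩⟩
  rintro _ ⟨n, rfl⟩
  exact div_nonneg (log_laps_nonneg a b n) (Nat.cast_nonneg n)

theorem tendsto_log_lin (C : ℝ) (hC : 0 < C) :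
    Tendsto (fun n : ℕ => Real.log (C * (n + 1)) / n) atTop (𝓝 0) := by
  have h1 : Tendsto (fun x : ℝ => Real.log x / x) atTop (𝓝 0) := by
    have := Real.isLittleO_log_id_atTop.tendsto_div_nhds_zero
    simpa using this
  have h2 : Tendsto (fun n : ℕ => C * ((n : ℝ) + 1)) atTop atTop := by
    apply Tendsto.const_mul_atTop hC
    exact tendsto_atTop_add_const_right _ _ tendsto_natCast_atTop_atTop
  have h3 := h1.comp h2
  have h4 : Tendsto (fun n : ℕ => C * (1 + 1 / (n : ℝ))) atTop (𝓝 (C * (1 + 0))) := by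
    apply Tendsto.const_mul
    apply Tendsto.const_add
    exact tendsto_one_div_atTop_nhds_zero_nat
  have h5 := h3.mul h4
  rw [zero_mul] at h5
  refine h5.congr' ?_
  filter_upwards [eventually_gt_atTop 0] with n hn
  have hn' : (n : ℝ) ≠ 0 := by exact_mod_cast hn.ne'
  have hn1 : (n : ℝ) + 1 ≠ 0 := by positivity
  simp only [Function.comp]
  field_simp

/-- comparison of growth rates -/
theorem compare {h h' : ℝ} {u : ℕ → ℝ} {C : ℝ} (hC : 0 < C) (c : ℕ) (hu1 : ∀ n, 0 < u n)
    (hu : ∀ n, u n ≤ C * (n + 1) * laps a b (n + c))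
    (h1 : Tendsto (fun n : ℕ => Real.log (u n) / n) atTop (𝓝 h')) (h2 : IsEntropy a b h) :
    h' ≤ h := by
  have h3 : Tendsto (fun n : ℕ => Real.log (C * (n + 1)) / n +
      (Real.log (laps a b (n + c)) / ((n + c : ℕ) : ℝ)) * (1 + c * (1 / (n : ℝ)))) atTop
      (𝓝 (0 + h * (1 + c * 0))) := by
    apply Tendsto.add (tendsto_log_lin C hC)
    apply Tendsto.mul
    · exact (tendsto_add_atTop_iff_nat c).2 h2
    · apply Tendsto.const_add
      apply Tendsto.const_mul
      exact tendsto_one_div_atTop_nhds_zero_nat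
  rw [mul_zero, add_zero, mul_one, zero_add] at h3
  refine le_of_tendsto_of_tendsto h1 h3 ?_
  filter_upwards [eventually_gt_atTop 0] with n hn
  have hn' : (0 : ℝ) < n := by exact_mod_cast hn
  have hl : (0 : ℝ) < laps a b (n + c) := by exact_mod_cast laps_pos a b (n + c)
  have e1 : Real.log (u n) ≤ Real.log (C * (n + 1)) + Real.log (laps a b (n + c)) := by
    rw [← Real.log_mul (by positivity) hl.ne']
    exact Real.log_le_log (hu1 n) (hu n)
  have e2 : (Real.log (laps a b (n + c)) / ((n + c : ℕ) : ℝ)) * (1 + c * (1 / (n : ℝ))) =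
      Real.log (laps a b (n + c)) / n := by
    have : ((n + c : ℕ) : ℝ) ≠ 0 := by positivity
    push_cast at this ⊢
    field_simp
  rw [e2, ← add_div]
  gcongr

/-- comparison of two maps -/
theorem compare_maps {a' b' h h' : ℝ} (hab : InP a b) (E : Finset ℝ)
    (hE : ∀ n x, x ∈ D a' b' n → x ∈ DE a b E n)
    (h1 : IsEntropy a' b' h') (h2 : IsEntropy a b h) : h' ≤ h := by
  refine compare (C := 1 + E.card) (by positivity) 0 (u := fun n => (laps a' b' n : ℝ)) ?_ ?_ h1 h2
  · intro n; exact_mod_cast laps_pos a' b' n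
  · intro n
    have k := DE_bound hab E n
    have k2 : laps a' b' n ≤ (DE a b E n).ncard + 1 :=
      Nat.succ_le_succ (ncard_le_ncard (fun x hx => hE n x hx) k.1)
    have k3 : (laps a' b' n : ℝ) ≤ (1 + E.card * n) * laps a b n := by
      exact_mod_cast k2.trans k.2
    refine k3.trans ?_
    rw [add_zero]
    have : (0 : ℝ) ≤ laps a b n := by positivity
    apply mul_le_mul_of_nonneg_right _ this
    have : (0 : ℝ) ≤ n := by positivity
    have : (0 : ℝ) ≤ (E.card : ℝ) := by positivity
    nlinarith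

end Pool.Agent.R660.CF
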