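import Pool.Agent.R660.CF.Basic

/-!
# The lower bound `log κ ≤ h`
-/

set_option autoImplicit false

namespace Pool.Agent.R660.CF

open Filter Topology Set

variable {a b : ℝ}

/-! ### The symmetry `(a, b) ↦ (-b, -a)` -/

theorem InP_symm (hab : InP a b) : InP (-b) (-a) := by
  obtain ⟨h1, h2, h3, h4⟩ := hab
  exact ⟨by linarith, by linarith, by linarith, by nlinarith⟩

theorem f_symm (hab : InP a b) {x : ℝ} (ha : x ≠ a) (h0 : x ≠ 0) (hb : x ≠ b) :
    f (-b) (-a) (-x) = -f a b x := by
  have hab' := InP_symm hab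
  rcases lt_or_ge x a with h1 | h1
  · rw [f_lt h1, f_ge hab' (by linarith)]; ring
  · have h1' : a < x := lt_of_le_of_ne h1 (Ne.symm ha)
    rcases lt_or_ge x b with h2 | h2
    · rw [f_mid h1 h2, f_mid (by linarith) (by linarith)]
      rw [div_neg]
    · have h2' : b < x := lt_of_le_of_ne h2 (Ne.symm hb)
      rw [f_ge hab h2, f_lt (by linarith)]; ring

theorem D_symm (hab : InP a b) (n : ℕ) : ∀ x : ℝ, x ∈ D a b n → -x ∈ D (-b) (-a) n := by
  induction n with
  | zero => intro x hx; rw [D_zero] at hx; exact absurd hx (notMem_empty x)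
  | succ n ih =>
    intro x hx
    rw [D_succ] at hx ⊢
    by_cases h : x = a ∨ x = 0 ∨ x = b
    · left
      rcases h with rfl | rfl | rfl
      · exact Or.inr (Or.inr rfl)
      · exact Or.inr (Or.inl neg_zero)
      · exact Or.inl rfl
    · right
      have hf := ih _ (hx.resolve_left h)
      push Not at h
      rwa [f_symm hab h.1 h.2.1 h.2.2]

theorem laps_symm (hab : InP a b) (n : ℕ) : laps (-b) (-a) n = laps a b n := by
  have key : ∀ {a b : ℝ}, InP a b → (D a b n).ncard ≤ (D (-b) (-a) n).ncard := by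
    intro a b hab
    exact ncard_le_ncard_of_injOn (fun x : ℝ => -x) (fun x hx => D_symm hab n x hx)
      (fun x _ y _ h => neg_injective h) (D_finite (InP_symm hab) n)
  have h1 := key hab
  have h2 := key (InP_symm hab)
  rw [neg_neg, neg_neg] at h2
  unfold laps
  omega

theorem entropy_symm (hab : InP a b) {h : ℝ} (hh : IsEntropy a b h) : IsEntropy (-b) (-a) h := by
  unfold IsEntropy at *
  simp only [laps_symm hab]
  exact hh

/-! ### The map `f_{-1,0}` -/

theorem InP_g : InP (-1) 0 := ⟨by norm_num, le_rfl, by norm_num, by norm_num⟩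

theorem g_mid {x : ℝ} (h1 : -1 ≤ x) (h2 : x < 0) : f (-1) 0 x = -1 / x := f_mid h1 h2

theorem g_ge {x : ℝ} (h : 0 ≤ x) : f (-1) 0 x = x - 1 := f_ge InP_g h

/-- preimages of `0` in `(-1, 0)` -/
def A (n : ℕ) : Set ℝ := {x | x ∈ Ioo (-1 : ℝ) 0 ∧ (f (-1) 0)^[n] x = 0}

theorem A_map1 {n : ℕ} {x : ℝ} (hx : x ∈ A (n + 1)) :
    x / (1 - x) ∈ A (n + 2) ∧ -(1 / 2) < x / (1 - x) := by
  obtain ⟨⟨h1, h2⟩, h3⟩ := hx
  have h4 : 0 < 1 - x := by linarith
  have h5 : x / (1 - x) < 0 := div_neg_of_neg_of_pos h2 h4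
  have h6 : -(1 / 2) < x / (1 - x) := by rw [lt_div_iff₀ h4]; linarith
  refine ⟨⟨⟨by linarith, h5⟩, ?_⟩, h6⟩
  have e1 : f (-1) 0 (x / (1 - x)) = 1 - 1 / x := by
    rw [g_mid (by linarith) h5]
    have hx0 : x ≠ 0 := h2.ne
    field_simp
    ring
  have h7 : -1 / x > 0 := div_pos_of_neg_of_neg (by norm_num) h2
  have h7' : -1 / x = -(1 / x) := by ring
  have e2 : f (-1) 0 (1 - 1 / x) = f (-1) 0 x := by
    rw [g_ge (by linarith), g_mid (by linarith) h2]; ring
  rw [Function.iterate_succ_apply, e1, Function.iterate_succ_apply, e2,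
    ← Function.iterate_succ_apply]
  exact h3

theorem A_map2 {n : ℕ} {x : ℝ} (hx : x ∈ A n) :
    -1 / (2 + x) ∈ A (n + 3) ∧ -1 / (2 + x) < -(1 / 2) := by
  obtain ⟨⟨h1, h2⟩, h3⟩ := hx
  have h4 : 0 < 2 + x := by linarith
  have h5 : -1 / (2 + x) < -(1 / 2) := by rw [div_lt_iff₀ h4]; linarith
  have h6 : -1 < -1 / (2 + x) := by rw [lt_div_iff₀ h4]; linarith
  refine ⟨⟨⟨h6, by linarith⟩, ?_⟩, h5⟩
  have e1 : f (-1) 0 (-1 / (2 + x)) = 2 + x := by
    rw [g_mid h6.le (by linarith)]
    field_simp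
  rw [Function.iterate_succ_apply, e1, Function.iterate_succ_apply, g_ge (by linarith),
    Function.iterate_succ_apply, g_ge (by linarith)]
  rw [show 2 + x - 1 - 1 = x by ring]
  exact h3

theorem A_half : (-(1 / 2) : ℝ) ∈ A 3 := by
  refine ⟨⟨by norm_num, by norm_num⟩, ?_⟩
  have e1 : f (-1) 0 (-(1 / 2)) = 2 := by
    rw [g_mid (by norm_num) (by norm_num)]; norm_num
  rw [Function.iterate_succ_apply, e1, Function.iterate_succ_apply, g_ge (by norm_num),
    Function.iterate_succ_apply, g_ge (by norm_num)]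
  norm_num

theorem A_finite (n : ℕ) : (A n).Finite := by
  refine (D_finite InP_g (n + 1)).subset ?_
  rintro x ⟨-, hx⟩
  exact ⟨n, by omega, Or.inr (Or.inl hx)⟩

theorem A_step (n : ℕ) : (A (n + 2)).ncard + (A n).ncard ≤ (A (n + 3)).ncard := by
  have hi1 : InjOn (fun x : ℝ => x / (1 - x)) (A (n + 2)) := by
    intro x hx y hy hxy
    have h1 : 1 - x ≠ 0 := by linarith [hx.1.2]
    have h2 : 1 - y ≠ 0 := by linarith [hy.1.2]
    simp only at hxy
    rw [div_eq_div_iff h1 h2] at hxy
    linarith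
  have hi2 : InjOn (fun x : ℝ => -1 / (2 + x)) (A n) := by
    intro x hx y hy hxy
    have h1 : 2 + x ≠ 0 := by linarith [hx.1.1]
    have h2 : 2 + y ≠ 0 := by linarith [hy.1.1]
    simp only at hxy
    rw [div_eq_div_iff h1 h2] at hxy
    linarith
  have hd : Disjoint ((fun x : ℝ => x / (1 - x)) '' A (n + 2))
      ((fun x : ℝ => -1 / (2 + x)) '' A n) := by
    rw [Set.disjoint_left]
    rintro _ ⟨x, hx, rfl⟩ ⟨y, hy, hxy⟩
    have h1 := (A_map1 hx).2
    have h2 := (A_map2 hy).2
    simp only at hxy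
    linarith
  have hsub : ((fun x : ℝ => x / (1 - x)) '' A (n + 2)) ∪ ((fun x : ℝ => -1 / (2 + x)) '' A n) ⊆
      A (n + 3) := by
    rintro _ (⟨x, hx, rfl⟩ | ⟨x, hx, rfl⟩)
    · exact (A_map1 hx).1
    · exact (A_map2 hx).1
  rw [← hi1.ncard_image, ← hi2.ncard_image,
    ← ncard_union_eq hd ((A_finite _).image _) ((A_finite _).image _)]
  exact ncard_le_ncard hsub (A_finite _)

theorem A_growth {κ : ℝ} (hκ : κ ^ 3 = κ ^ 2 + 1) (hκ1 : 1 ≤ κ) (n : ℕ) :
    κ ^ n ≤ κ ^ 2 * (A (n + 3)).ncard ∧ κ ^ (n + 1) ≤ κ ^ 2 * (A (n + 4)).ncard ∧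
      κ ^ (n + 2) ≤ κ ^ 2 * (A (n + 5)).ncard := by
  have hpos : 0 < κ := by linarith
  induction n with
  | zero =>
    have h3 : 1 ≤ (A 3).ncard := by
      rw [Nat.one_le_iff_ne_zero, Ne, ncard_eq_zero (A_finite 3)]
      exact nonempty_iff_ne_empty.1 ⟨_, A_half⟩
    have h4 : 1 ≤ (A 4).ncard := h3.trans (by have := A_step 1; norm_num at this; omega)
    have h5 : 1 ≤ (A 5).ncard := h4.trans (by have := A_step 2; norm_num at this; omega)
    have h3' : (1 : ℝ) ≤ (A 3).ncard := by exact_mod_cast h3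
    have h4' : (1 : ℝ) ≤ (A 4).ncard := by exact_mod_cast h4
    have h5' : (1 : ℝ) ≤ (A 5).ncard := by exact_mod_cast h5
    have hsq : 1 ≤ κ ^ 2 := one_le_pow₀ hκ1
    have hsq2 : κ ≤ κ ^ 2 := by nlinarith
    simp only [zero_add, pow_zero, pow_one]
    refine ⟨?_, ?_, ?_⟩ <;> nlinarith
  | succ n ih =>
    refine ⟨ih.2.1, ih.2.2, ?_⟩
    have h1 : ((A (n + 5)).ncard : ℝ) + (A (n + 3)).ncard ≤ (A (n + 6)).ncard := by
      exact_mod_cast A_step (n + 3)
    have h2 : κ ^ (n + 1 + 2) = κ ^ (n + 2) + κ ^ n := by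
      calc κ ^ (n + 1 + 2) = κ ^ n * κ ^ 3 := by ring
        _ = κ ^ n * (κ ^ 2 + 1) := by rw [hκ]
        _ = _ := by ring
    rw [h2, show n + 1 + 5 = n + 6 by ring]
    have h3 : 0 < κ ^ 2 := by positivity
    nlinarith [ih.1, ih.2.2]

/-! ### Shadowing -/

/-- the finite set -/
noncomputable def Elow (a b : ℝ) : Finset ℝ := {a, 0, b, a - 1, -1}

theorem mem_Elow {x : ℝ} : x ∈ Elow a b ↔ x = a ∨ x = 0 ∨ x = b ∨ x = a - 1 ∨ x = -1 := by
  simp [Elow]

theorem low_claims (hab : InP a b) (hba : b ≤ -a) (n : ℕ) :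
    (∀ p, -1 < p → (f (-1) 0)^[n] p = 0 → ∃ i ≤ n, (f a b)^[i] p ∈ Elow a b) ∧
    (∀ v, v < a → (f (-1) 0)^[n] (-1 / v - 1) = 0 →
      ∃ i ≤ n + (if -1 < v then 2 else 0), (f a b)^[i] v ∈ Elow a b) := by
  have hab0 := hab
  obtain ⟨ha0, hb0, hab1, hab2⟩ := hab
  have ha2 : a ≤ -(1 / 2) := by linarith
  have hb1 : b ≤ 1 := by nlinarith
  have hlow : ∀ p : ℝ, 0 < p → p < b → -1 / p < a ∧ -1 / p < -1 := by
    intro p hp hpb
    constructor
    · rw [div_lt_iff₀ hp]; nlinarith
    · rw [div_lt_iff₀ hp]; linarith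
  induction n using Nat.strong_induction_on with
  | _ n ih =>
  constructor
  · intro p hp1 hp
    by_cases hE : p ∈ Elow a b
    · exact ⟨0, by omega, hE⟩
    have hE' := hE
    rw [mem_Elow] at hE'
    push Not at hE'
    obtain ⟨hpa, hp0, hpb, hpa1, hp1'⟩ := hE'
    rcases n with _ | n
    · exact absurd hp hp0
    rcases lt_or_ge p 0 with h0 | h0
    · have hinv : 1 < -1 / p := by rw [lt_div_iff_of_neg h0]; linarith
      rcases lt_or_ge p a with h1 | h1
      · -- case A
        rw [Function.iterate_succ_apply, g_mid hp1.le h0] at hp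
        rcases n with _ | n
        · simp only [Function.iterate_zero, id] at hp
          linarith
        · rw [Function.iterate_succ_apply, g_ge (by linarith)] at hp
          obtain ⟨i, hi, h⟩ := (ih n (by omega)).2 p h1 hp
          rw [if_pos hp1] at hi
          exact ⟨i, by omega, h⟩
      · -- case B
        rw [Function.iterate_succ_apply, g_mid hp1.le h0] at hp
        obtain ⟨i, hi, h⟩ := (ih n (by omega)).1 (-1 / p) (by linarith) hp
        refine ⟨i + 1, by omega, ?_⟩
        rw [Function.iterate_succ_apply, f_mid h1 (by linarith)]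
        exact h
    · have h0' : 0 < p := lt_of_le_of_ne h0 (Ne.symm hp0)
      rcases lt_or_ge p b with h1 | h1
      · -- case C
        obtain ⟨k1, k2⟩ := hlow p h0' h1
        rw [Function.iterate_succ_apply, g_ge h0] at hp
        have e1 : -1 / (-1 / p) - 1 = p - 1 := by field_simp
        obtain ⟨i, hi, h⟩ := (ih n (by omega)).2 (-1 / p) k1 (by rw [e1]; exact hp)
        rw [if_neg (by linarith)] at hi
        refine ⟨i + 1, by omega, ?_⟩
        rw [Function.iterate_succ_apply, f_mid (by linarith) h1]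
        exact h
      · -- case D
        rw [Function.iterate_succ_apply, g_ge h0] at hp
        obtain ⟨i, hi, h⟩ := (ih n (by omega)).1 (p - 1) (by linarith) hp
        refine ⟨i + 1, by omega, ?_⟩
        rw [Function.iterate_succ_apply, f_ge hab0 h1]
        exact h
  · intro v hva hv
    by_cases hE : v ∈ Elow a b
    · exact ⟨0, by omega, hE⟩
    have hE' := hE
    rw [mem_Elow] at hE'
    push Not at hE'
    obtain ⟨-, hv0', -, hva1, hv1⟩ := hE'
    have hv0 : v < 0 := by linarith
    have hfv : f a b v = v + 1 := f_lt hva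
    -- `w = v + 1`
    rcases lt_or_gt_of_ne hv1 with hlt | hgt
    · -- v < -1
      have hw0 : v + 1 < 0 := by linarith
      have q1 : -1 / v < 1 := by rw [div_lt_iff_of_neg hv0]; linarith
      have q2 : 0 < -1 / v := div_pos_of_neg_of_neg (by norm_num) hv0
      have e1 : -1 / (-1 / v - 1) = 1 - 1 / (v + 1) := by
        have : -1 / v - 1 = -(v + 1) / v := by field_simp; ring
        have hw : v + 1 ≠ 0 := hw0.ne
        rw [this]
        field_simp
        ring
      have e2 : 0 < -1 / (v + 1) := div_pos_of_neg_of_neg (by norm_num) hw0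
      have e2' : -1 / (v + 1) = -(1 / (v + 1)) := by ring
      have hn2 : ∃ m, n = m + 2 ∧ (f (-1) 0)^[m] (-1 / (v + 1)) = 0 := by
        rcases n with _ | n
        · simp only [Function.iterate_zero, id] at hv; linarith
        rw [Function.iterate_succ_apply, g_mid (by linarith) (by linarith), e1] at hv
        rcases n with _ | n
        · simp only [Function.iterate_zero, id] at hv; linarith
        rw [Function.iterate_succ_apply, g_ge (by linarith)] at hv
        refine ⟨n, rfl, ?_⟩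
        rw [show (1 : ℝ) - 1 / (v + 1) - 1 = -1 / (v + 1) by ring] at hv
        exact hv
      obtain ⟨m, rfl, hm⟩ := hn2
      rw [if_neg (by linarith)]
      rcases lt_or_ge (v + 1) a with h1 | h1
      · -- three steps
        rcases m with _ | m
        · simp only [Function.iterate_zero, id] at hm; linarith
        rw [Function.iterate_succ_apply, g_ge e2.le] at hm
        obtain ⟨i, hi, h⟩ := (ih m (by omega)).2 (v + 1) h1 hm
        refine ⟨i + 1, ?_, ?_⟩
        · split_ifs at hi <;> omega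
        · rw [Function.iterate_succ_apply, hfv]
          exact h
      · obtain ⟨i, hi, h⟩ := (ih m (by omega)).1 (-1 / (v + 1)) (by linarith) hm
        refine ⟨i + 2, by omega, ?_⟩
        rw [Function.iterate_succ_apply, hfv, Function.iterate_succ_apply,
          f_mid h1 (by linarith)]
        exact h
    · -- -1 < v < a
      have hw0 : 0 < v + 1 := by linarith
      have hwb : v + 1 < b := by linarith
      have q1 : 1 < -1 / v := by rw [lt_div_iff_of_neg hv0]; linarith
      rw [if_pos (by linarith)]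
      rcases n with _ | n
      · simp only [Function.iterate_zero, id] at hv; linarith
      rw [Function.iterate_succ_apply, g_ge (by linarith)] at hv
      obtain ⟨k1, k2⟩ := hlow (v + 1) hw0 hwb
      have k3 : -1 / (v + 1) + 1 < a := by
        have : -1 / (v + 1) < a - 1 := by
          rw [div_lt_iff₀ hw0]
          nlinarith
        linarith
      have k4 : -1 / (v + 1) + 1 < -1 := by
        have : -1 / (v + 1) < -2 := by
          rw [div_lt_iff₀ hw0]
          linarith
        linarith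
      have e1 : -1 / (-1 / (v + 1) + 1) - 1 = -1 / v - 1 - 1 := by
        have hw : v + 1 ≠ 0 := hw0.ne'
        have : -1 / (v + 1) + 1 = v / (v + 1) := by field_simp; ring
        rw [this]
        field_simp
        ring
      obtain ⟨i, hi, h⟩ := (ih n (by omega)).2 (-1 / (v + 1) + 1) k3 (by rw [e1]; exact hv)
      rw [if_neg (by linarith)] at hi
      refine ⟨i + 3, by omega, ?_⟩
      rw [Function.iterate_succ_apply, hfv, Function.iterate_succ_apply,
        f_mid (by linarith) hwb, Function.iterate_succ_apply, f_lt k1]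
      exact h

theorem entropy_ge_aux (hab : InP a b) (hba : b ≤ -a) {h κ : ℝ} (hκ : κ ^ 3 = κ ^ 2 + 1)
    (hκ1 : 1 ≤ κ) (hh : IsEntropy a b h) : Real.log κ ≤ h := by
  have hpos : 0 < κ := by linarith
  refine compare (a := a) (b := b) (C := 24 * κ ^ 2) (by positivity) 4 (u := fun n => κ ^ n)
    (fun n => by positivity) ?_ ?_ hh
  · intro n
    have h1 := (A_growth hκ hκ1 n).1
    have h2 : (A (n + 3)).ncard ≤ (DE a b (Elow a b) (n + 4)).ncard := by
      refine ncard_le_ncard ?_ (DE_bound hab (Elow a b) (n + 4)).1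
      rintro x ⟨hx1, hx2⟩
      obtain ⟨i, hi, h⟩ := (low_claims hab hba (n + 3)).1 x hx1.1 hx2
      exact ⟨i, by omega, h⟩
    have h3 := (DE_bound hab (Elow a b) (n + 4)).2
    have h4 : (Elow a b).card ≤ 5 := by
      unfold Elow
      exact Finset.card_le_five
    have h5 : (A (n + 3)).ncard ≤ (1 + 5 * (n + 4)) * laps a b (n + 4) := by
      have h6 : (1 + (Elow a b).card * (n + 4)) * laps a b (n + 4) ≤
          (1 + 5 * (n + 4)) * laps a b (n + 4) := by
        apply Nat.mul_le_mul_right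
        apply Nat.add_le_add_left
        exact Nat.mul_le_mul_right _ h4
      omega
    have h5' : ((A (n + 3)).ncard : ℝ) ≤ (1 + 5 * (n + 4)) * laps a b (n + 4) := by
      exact_mod_cast h5
    have hl : (0 : ℝ) ≤ laps a b (n + 4) := Nat.cast_nonneg _
    have hn : (0 : ℝ) ≤ n := Nat.cast_nonneg _
    have hk2 : 0 < κ ^ 2 := by positivity
    calc κ ^ n ≤ κ ^ 2 * (A (n + 3)).ncard := h1
      _ ≤ κ ^ 2 * ((1 + 5 * (n + 4)) * laps a b (n + 4)) := by gcongr
      _ ≤ κ ^ 2 * (24 * (n + 1) * laps a b (n + 4)) := by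
        apply mul_le_mul_of_nonneg_left _ hk2.le
        apply mul_le_mul_of_nonneg_right _ hl
        nlinarith
      _ = _ := by ring
  · simp only [Real.log_pow]
    refine tendsto_const_nhds.congr' ?_
    filter_upwards [eventually_gt_atTop 0] with n hn
    have : (n : ℝ) ≠ 0 := by exact_mod_cast hn.ne'
    field_simp

/-- the lower bound -/
theorem entropy_ge (hab : InP a b) {h κ : ℝ} (hκ : κ ^ 3 = κ ^ 2 + 1) (hκ1 : 1 ≤ κ)
    (hh : IsEntropy a b h) : Real.log κ ≤ h := by
  rcases le_total b (-a) with hba | hba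
  · exact entropy_ge_aux hab hba hκ hκ1 hh
  · exact entropy_ge_aux (InP_symm hab) (by linarith) hκ hκ1 (entropy_symm hab hh)

end Pool.Agent.R660.CF
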