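import Pool.Agent.R660.CF.Basic

/-!
# Comparison of the maps `f_{a',b}` and `f_{a,b}`, `a' < a`
-/

set_option autoImplicit false

namespace Pool.Agent.R660.CF

open Filter Topology Set

section mono

variable {a a' b : ℝ}

/-- the exceptional set -/
noncomputable def Emono (a a' b : ℝ) : Finset ℝ :=
  {a', a, 0, b, a - 1, -1, -1 / (1 + b), -1 / (1 + a'), b / (1 + b)}

theorem mem_Emono {x : ℝ} : x ∈ Emono a a' b ↔ x = a' ∨ x = a ∨ x = 0 ∨ x = b ∨ x = a - 1 ∨
    x = -1 ∨ x = -1 / (1 + b) ∨ x = -1 / (1 + a') ∨ x = b / (1 + b) := by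
  simp [Emono]

/-- the hitting property -/
def Hit (a b q : ℝ) : Prop := q = a ∨ q = 0 ∨ q = b

theorem mono_claims (hab : InP a b) (hab' : InP a' b) (haa : a' < a) (hb2 : b ≤ 1 / 2) (n : ℕ) :
    (∀ p, Hit a' b ((f a' b)^[n] p) → ∃ i ≤ n, (f a b)^[i] p ∈ Emono a a' b) ∧
    (∀ p, p < a → -(p * b) < 1 → Hit a' b ((f a' b)^[n] (-1 / p)) →
      ∃ i ≤ n + 1, (f a b)^[i] p ∈ Emono a a' b) ∧
    (∀ u, u < a → -(u * b) < 1 → Hit a' b ((f a' b)^[n] (-1 / u - 1)) →
      ∃ i ≤ n + (if -1 < u then 2 else 0), (f a b)^[i] u ∈ Emono a a' b) ∧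
    (∀ v, v < 0 → -(v * b) < 1 → Hit a' b ((f a' b)^[n] (1 - 1 / v)) →
      ∃ i ≤ n, (f a b)^[i] v ∈ Emono a a' b) := by
  have hab0 := hab
  have hab0' := hab'
  obtain ⟨h1, h2, h3, h4⟩ := hab0
  obtain ⟨h1', h2', h3', h4'⟩ := hab0'
  have ha12 : a ≤ -1 / 2 := by linarith
  have inv_gt : ∀ p : ℝ, p < 0 → -(p * b) < 1 → b < -1 / p := by
    intro p hp hpb
    rw [lt_div_iff_of_neg hp]
    linarith
  induction n with
  | zero =>
    refine ⟨?_, ?_, ?_, ?_⟩
    · intro p hp
      refine ⟨0, le_rfl, ?_⟩
      rw [Function.iterate_zero, id, mem_Emono]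
      rcases hp with h | h | h <;> simp only [Function.iterate_zero, id] at h <;> simp [h]
    · intro p hp hpb hh
      exfalso
      have := inv_gt p (by linarith) hpb
      rcases hh with h | h | h <;> simp only [Function.iterate_zero, id] at h <;> linarith
    · intro u hu hub hh
      refine ⟨0, Nat.zero_le _, ?_⟩
      rw [Function.iterate_zero, id, mem_Emono]
      have hu0 : u ≠ 0 := by intro h; linarith
      rcases hh with h | h | h <;> simp only [Function.iterate_zero, id] at h
      · have h5 : 1 + a' = -1 / u := by linarith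
        have h6 : u = -1 / (1 + a') := by
          rw [h5]; field_simp
        simp [h6]
      · have h5 : -1 / u = 1 := by linarith
        have h6 : u = -1 := by
          field_simp at h5; linarith
        simp [h6]
      · have h5 : 1 + b = -1 / u := by linarith
        have h6 : u = -1 / (1 + b) := by
          rw [h5]; field_simp
        simp [h6]
    · intro v hv hvb hh
      exfalso
      have hv1 : 0 < -(1 / v) := by
        rw [neg_pos]; exact one_div_neg.2 hv
      rcases hh with h | h | h <;> simp only [Function.iterate_zero, id] at h <;> linarith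
  | succ n ih =>
    obtain ⟨iM, iN2, iC, iN1⟩ := ih
    refine ⟨?_, ?_, ?_, ?_⟩
    · intro p hp
      by_cases hpE : p ∈ Emono a a' b
      · exact ⟨0, Nat.zero_le _, hpE⟩
      rw [mem_Emono] at hpE
      push Not at hpE
      obtain ⟨e1, e2, e3, e4, -⟩ := hpE
      rw [Function.iterate_succ_apply] at hp
      have same : f a' b p = f a b p → ∃ i ≤ n + 1, (f a b)^[i] p ∈ Emono a a' b := by
        intro hs
        rw [hs] at hp
        obtain ⟨i, hi, h⟩ := iM _ hp
        exact ⟨i + 1, by omega, by rwa [Function.iterate_succ_apply]⟩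
      rcases lt_or_ge p a' with hc | hc
      · exact same (by rw [f_lt hc, f_lt (by linarith)])
      rcases lt_or_ge p a with hc2 | hc2
      · have hpa : a' < p := lt_of_le_of_ne hc (Ne.symm e1)
        rw [f_mid hc (by linarith)] at hp
        have hpb : -(p * b) < 1 := by
          rcases h2.lt_or_eq with hb0 | hb0
          · nlinarith
          · rw [← hb0]; simp
        obtain ⟨i, hi, h⟩ := iN2 p hc2 hpb hp
        exact ⟨i, hi, h⟩
      rcases lt_or_ge p b with hc3 | hc3
      · exact same (by rw [f_mid hc hc3, f_mid hc2 hc3])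
      · exact same (by rw [f_ge hab' hc3, f_ge hab hc3])
    · intro p hp hpb hh
      have hgt := inv_gt p (by linarith) hpb
      rw [Function.iterate_succ_apply, f_ge hab' hgt.le] at hh
      obtain ⟨i, hi, h⟩ := iC p hp hpb hh
      refine ⟨i, ?_, h⟩
      split_ifs at hi <;> omega
    · intro u hu hub hh
      by_cases hpE : u ∈ Emono a a' b
      · exact ⟨0, Nat.zero_le _, hpE⟩
      rw [mem_Emono] at hpE
      push Not at hpE
      obtain ⟨e1, e2, e3, e4, e5, e6, e7, e8, e9⟩ := hpE
      have hu0 : u < 0 := by linarith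
      have hgt := inv_gt u hu0 hub
      rw [Function.iterate_succ_apply] at hh
      have hfu : f a b u = u + 1 := f_lt hu
      rcases lt_trichotomy (u + 1) 0 with hv | hv | hv
      · -- v < 0
        have hq : -1 / u - 1 < 0 := by
          have : -1 / u < 1 := by
            rw [div_lt_iff_of_neg hu0]; linarith
          linarith
        rw [f_mid (by linarith) (by linarith)] at hh
        have e : -1 / (-1 / u - 1) = 1 - 1 / (u + 1) := by
          have h6 : u + 1 ≠ 0 := hv.ne
          have h7 : -1 / u - 1 ≠ 0 := hq.ne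
          have h8 : u ≠ 0 := hu0.ne
          have h9 : -1 - u ≠ 0 := by intro h; apply h6; linarith
          field_simp
          ring
        rw [e] at hh
        have hvb : -((u + 1) * b) < 1 := by nlinarith
        obtain ⟨i, hi, h⟩ := iN1 (u + 1) hv hvb hh
        refine ⟨i + 1, by omega, ?_⟩
        rw [Function.iterate_succ_apply, hfu]
        exact h
      · exact absurd (by linarith : u = -1) e6
      · -- v > 0
        have hb0 : 0 < b := by linarith
        have hvb : u + 1 < b := by linarith
        have hv1 : 0 < 1 - (u + 1) := by linarith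
        have h8 : u ≠ 0 := hu0.ne
        have h6 : u + 1 ≠ 0 := hv.ne'
        have hq0 : -1 / u - 1 = (u + 1) / (1 - (u + 1)) := by
          have : (1 - (u + 1)) ≠ 0 := hv1.ne'
          have h9 : -u ≠ 0 := by simpa using h8
          rw [show (1 - (u + 1)) = -u by ring]
          field_simp
          ring
        -- the orbit of p
        have hiter : (f a b)^[3] u = 1 - 1 / (u + 1) := by
          rw [show 3 = 0 + 1 + 1 + 1 from rfl, Function.iterate_succ_apply,
            Function.iterate_succ_apply, Function.iterate_succ_apply, Function.iterate_zero, id,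
            hfu, f_mid (by linarith) hvb]
          have h9 : -1 / (u + 1) < a := by
            have h10 : -1 / (u + 1) < -1 / b := by
              rw [neg_div, neg_div, neg_lt_neg_iff]
              exact one_div_lt_one_div_of_lt hv hvb
            have h11 : -1 / b ≤ a' := by
              rw [div_le_iff₀ hb0]; linarith
            linarith
          rw [f_lt h9]; ring
        rw [if_pos (by linarith : -1 < u)]
        have hv1' : 0 < 1 / (u + 1) := one_div_pos.2 hv
        rcases lt_trichotomy (u + 1) (b / (1 + b)) with hc | hc | hc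
        · have hqb : -1 / u - 1 < b := by
            rw [hq0, div_lt_iff₀ hv1]
            rw [lt_div_iff₀ (by linarith)] at hc
            linarith
          have hq1 : 0 < -1 / u - 1 := by
            rw [hq0]; exact div_pos hv hv1
          rw [f_mid (by linarith) hqb] at hh
          have e : -1 / (-1 / u - 1) = 1 - 1 / (u + 1) := by
            rw [hq0]
            have : (1 - (u + 1)) ≠ 0 := hv1.ne'
            field_simp
            ring
          rw [e] at hh
          obtain ⟨i, hi, h⟩ := iM _ hh
          refine ⟨i + 3, by omega, ?_⟩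
          rw [Function.iterate_add_apply, hiter]
          exact h
        · exfalso
          apply e7
          have h12 : (1 + b) ≠ 0 := by positivity
          have : u = b / (1 + b) - 1 := by linarith
          rw [this]; field_simp; ring
        · have hqb : b < -1 / u - 1 := by
            rw [hq0, lt_div_iff₀ hv1]
            rw [div_lt_iff₀ (by linarith)] at hc
            linarith
          rw [f_ge hab' hqb.le] at hh
          have hu'0 : 1 - 1 / (u + 1) ≠ 0 := by
            intro h
            have : 1 / (u + 1) = 1 := by linarith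
            rw [div_eq_iff h6] at this
            linarith
          have e : -1 / u - 1 - 1 = -1 / (1 - 1 / (u + 1)) - 1 := by
            have h13 : u + 1 - 1 ≠ 0 := by simpa using h8
            field_simp
            ring
          rw [e] at hh
          have hb1 : 1 / b < 1 / (u + 1) := one_div_lt_one_div_of_lt hv hvb
          have hb3 : 2 ≤ 1 / b := by
            rw [le_div_iff₀ hb0]; linarith
          have hc' : 1 / (u + 1) < (1 + b) / b := by
            rw [div_lt_div_iff₀ hv hb0]
            rw [div_lt_iff₀ (by linarith)] at hc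
            linarith
          have hc2 : (1 + b) / b = 1 / b + 1 := by field_simp
          have hub' : -((1 - 1 / (u + 1)) * b) < 1 := by
            have h14 : (1 / (u + 1)) * b < 1 + b := by
              rw [lt_div_iff₀ hb0] at hc'
              exact hc'
            nlinarith
          obtain ⟨i, hi, h⟩ := iC (1 - 1 / (u + 1)) (by linarith) hub' hh
          rw [if_neg (by linarith)] at hi
          refine ⟨i + 3, by omega, ?_⟩
          rw [Function.iterate_add_apply, hiter]
          exact h
    · intro v hv hvb hh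
      have hgt := inv_gt v hv hvb
      have hv1 : 0 < -(1 / v) := by
        rw [neg_pos]; exact one_div_neg.2 hv
      rw [Function.iterate_succ_apply, f_ge hab' (by linarith)] at hh
      have e : 1 - 1 / v - 1 = -1 / v := by ring
      rw [e] at hh
      rcases lt_trichotomy v a with hc | hc | hc
      · exact iN2 v hc hvb hh
      · refine ⟨0, Nat.zero_le _, ?_⟩
        rw [Function.iterate_zero, id, mem_Emono]
        simp [hc]
      · obtain ⟨i, hi, h⟩ := iM _ hh
        refine ⟨i + 1, by omega, ?_⟩
        rw [Function.iterate_succ_apply, f_mid hc.le (by linarith)]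
        exact h

/-- monotonicity in `a` for `b ≤ 1/2` -/
theorem mono_entropy (hab : InP a b) (hab' : InP a' b) (haa : a' ≤ a) (hb2 : b ≤ 1 / 2)
    {h h' : ℝ} (h1 : IsEntropy a' b h') (h2 : IsEntropy a b h) : h' ≤ h := by
  rcases haa.lt_or_eq with hlt | heq
  · refine compare_maps hab (Emono a a' b) ?_ h1 h2
    rintro n x ⟨j, hj, hx⟩
    obtain ⟨i, hi, h⟩ := (mono_claims hab hab' hlt hb2 j).1 x hx
    exact ⟨i, by omega, h⟩
  · subst heq
    exact (tendsto_nhds_unique h1 h2).le

end mono

section plateau

variable {a a' b : ℝ}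

/-- the exceptional set -/
noncomputable def Epl (a a' b : ℝ) : Finset ℝ := {a', a, 0, b, a - 1, -1, b - 1}

theorem mem_Epl {x : ℝ} : x ∈ Epl a a' b ↔ x = a' ∨ x = a ∨ x = 0 ∨ x = b ∨ x = a - 1 ∨
    x = -1 ∨ x = b - 1 := by
  simp [Epl]

theorem plateau_claims (hab : InP a b) (hab' : InP a' b) (haa : a' < a) (hb0 : 0 < b)
    (ha' : -1 ≤ a') (ha : a ≤ -1 / (b + 1)) (n : ℕ) :
    (∀ p, Hit a b ((f a b)^[n] p) → ∃ i ≤ n, (f a' b)^[i] p ∈ Epl a a' b) ∧
    (∀ p, a' < p → p < a → Hit a b ((f a b)^[n] (p + 1)) →
      ∃ i ≤ n + 1, (f a' b)^[i] p ∈ Epl a a' b) ∧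
    (∀ p, a' < p → p < a → Hit a b ((f a b)^[n] (-1 / (p + 1))) →
      ∃ i ≤ n + 2, (f a' b)^[i] p ∈ Epl a a' b) := by
  have hab0 := hab
  have hab0' := hab'
  obtain ⟨h1, h2, h3, h4⟩ := hab0
  obtain ⟨h1', h2', h3', h4'⟩ := hab0'
  have hb1 : 0 < b + 1 := by linarith
  have key : ∀ p, a' < p → p < a → 0 < p + 1 ∧ p + 1 < b ∧ -1 / (p + 1) < a ∧
      (f a' b)^[3] p = 1 - 1 / (p + 1) ∧ f a b (-1 / (p + 1)) = 1 - 1 / (p + 1) := by
    intro p hp1 hp2
    have c1 : 0 < p + 1 := by linarith
    have c2 : p + 1 < b / (b + 1) := by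
      have : -1 / (b + 1) + 1 = b / (b + 1) := by field_simp; ring
      linarith
    have c3 : b / (b + 1) < b := by
      rw [div_lt_iff₀ hb1]; nlinarith
    have c4 : p + 1 < b := by linarith
    have c5 : -1 / (p + 1) < -1 / b := by
      rw [neg_div, neg_div, neg_lt_neg_iff]
      exact one_div_lt_one_div_of_lt c1 c4
    have c6 : -1 / b ≤ a := by
      rw [div_le_iff₀ hb0]; linarith
    have c7 : -1 / (p + 1) < a := by linarith
    have hp0 : p < 0 := by linarith
    have c8 : b < -1 / p := by
      rw [lt_div_iff_of_neg hp0]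
      have : -(a' * b) ≤ 1 := h4'
      nlinarith
    have c9 : -1 / p - 1 = (p + 1) / (-p) := by
      have : p ≠ 0 := hp0.ne
      field_simp
      ring
    have c10 : 0 < -1 / p - 1 := by
      rw [c9]; exact div_pos c1 (by linarith)
    have c11 : -1 / p - 1 < b := by
      rw [c9, div_lt_iff₀ (by linarith)]
      rw [lt_div_iff₀ hb1] at c2
      nlinarith
    refine ⟨c1, c4, c7, ?_, ?_⟩
    · rw [show 3 = 0 + 1 + 1 + 1 from rfl, Function.iterate_succ_apply,
        Function.iterate_succ_apply, Function.iterate_succ_apply, Function.iterate_zero, id,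
        f_mid hp1.le (by linarith), f_ge hab' c8.le, f_mid (by linarith) c11, c9]
      have : p ≠ 0 := hp0.ne
      have : p + 1 ≠ 0 := c1.ne'
      field_simp
      ring
    · rw [f_lt c7]; ring
  induction n with
  | zero =>
    refine ⟨?_, ?_, ?_⟩
    · intro p hp
      refine ⟨0, le_rfl, ?_⟩
      rw [Function.iterate_zero, id, mem_Epl]
      rcases hp with h | h | h <;> simp only [Function.iterate_zero, id] at h <;> simp [h]
    · intro p hp1 hp2 hh
      refine ⟨0, Nat.zero_le _, ?_⟩
      rw [Function.iterate_zero, id, mem_Epl]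
      rcases hh with h | h | h <;> simp only [Function.iterate_zero, id] at h
      · have : p = a - 1 := by linarith
        simp [this]
      · have : p = -1 := by linarith
        simp [this]
      · have : p = b - 1 := by linarith
        simp [this]
    · intro p hp1 hp2 hh
      exfalso
      obtain ⟨c1, c2, c3, -, -⟩ := key p hp1 hp2
      rcases hh with h | h | h <;> simp only [Function.iterate_zero, id] at h <;> linarith
  | succ n ih =>
    obtain ⟨iM, iP, iQ⟩ := ih
    refine ⟨?_, ?_, ?_⟩
    · intro p hp
      by_cases hpE : p ∈ Epl a a' b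
      · exact ⟨0, Nat.zero_le _, hpE⟩
      rw [mem_Epl] at hpE
      push Not at hpE
      obtain ⟨e1, e2, e3, e4, -⟩ := hpE
      rw [Function.iterate_succ_apply] at hp
      have same : f a b p = f a' b p → ∃ i ≤ n + 1, (f a' b)^[i] p ∈ Epl a a' b := by
        intro hs
        rw [hs] at hp
        obtain ⟨i, hi, h⟩ := iM _ hp
        exact ⟨i + 1, by omega, by rwa [Function.iterate_succ_apply]⟩
      rcases lt_or_ge p a' with hc | hc
      · exact same (by rw [f_lt hc, f_lt (by linarith)])
      rcases lt_or_ge p a with hc2 | hc2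
      · have hpa : a' < p := lt_of_le_of_ne hc (Ne.symm e1)
        rw [f_lt hc2] at hp
        exact iP p hpa hc2 hp
      rcases lt_or_ge p b with hc3 | hc3
      · exact same (by rw [f_mid hc hc3, f_mid hc2 hc3])
      · exact same (by rw [f_ge hab' hc3, f_ge hab hc3])
    · intro p hp1 hp2 hh
      obtain ⟨c1, c2, c3, c4, c5⟩ := key p hp1 hp2
      rw [Function.iterate_succ_apply, f_mid (by linarith) c2] at hh
      obtain ⟨i, hi, h⟩ := iQ p hp1 hp2 hh
      exact ⟨i, by omega, h⟩
    · intro p hp1 hp2 hh
      obtain ⟨c1, c2, c3, c4, c5⟩ := key p hp1 hp2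
      rw [Function.iterate_succ_apply, c5] at hh
      obtain ⟨i, hi, h⟩ := iM _ hh
      refine ⟨i + 3, by omega, ?_⟩
      rw [Function.iterate_add_apply, c4]
      exact h

/-- the plateau -/
theorem plateau_entropy (hb : 0 ≤ b) (hb2 : b ≤ 1 / 2) (ha1 : -1 ≤ a) (ha2 : a ≤ -1 / (b + 1)) :
    InP a b ∧ ∀ h h' : ℝ, IsEntropy a b h → IsEntropy (-1) b h' → h = h' := by
  have hb1 : 0 < b + 1 := by linarith
  have hI : -1 / (b + 1) ≤ b - 1 := by
    rw [div_le_iff₀ hb1]; nlinarith
  have hneg : -1 / (b + 1) < 0 := div_neg_of_neg_of_pos (by norm_num) hb1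
  have hab : InP a b := ⟨by linarith, hb, by linarith, by nlinarith⟩
  have hab' : InP (-1) b := ⟨by norm_num, hb, by linarith, by linarith⟩
  refine ⟨hab, fun h h' h1 h2 => ?_⟩
  rcases ha1.lt_or_eq with hlt | heq
  · have hb0 : 0 < b := by
      rcases hb.lt_or_eq with h0 | h0
      · exact h0
      · exfalso
        rw [← h0] at ha2
        norm_num at ha2
        linarith
    apply le_antisymm
    · refine compare_maps hab' (Epl a (-1) b) ?_ h1 h2
      rintro n x ⟨j, hj, hx⟩
      obtain ⟨i, hi, h⟩ := (plateau_claims hab hab' hlt hb0 le_rfl ha2 j).1 x hx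
      exact ⟨i, by omega, h⟩
    · exact mono_entropy hab hab' ha1 hb2 h2 h1
  · subst heq
    exact tendsto_nhds_unique h1 h2

end plateau

end Pool.Agent.R660.CF
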