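import Pool.Agent.R660.CF.Basic

/-!
# The map on `[-1, 1]`, its laps, and its entropy
-/

set_option autoImplicit false

namespace Pool.Agent.R660.CF

open Filter Topology Set

/-- the homeomorphism `k` of the line onto `(-1, 1)` -/
noncomputable def k (x : ℝ) : ℝ := x / (1 + |x|)

/-- the inverse of `k` on `(-1, 1)` -/
noncomputable def kinv (y : ℝ) : ℝ := y / (1 - |y|)

/-- The map `k ∘ f_{a,b} ∘ k⁻¹` of `[-1, 1]`: the branch `k ∘ T ∘ k⁻¹` on `[-1, k a)` (it fixes
`-1 = k (∞)`), the branch `k ∘ S ∘ k⁻¹` on `[k a, k b)`, and `k ∘ T⁻¹ ∘ k⁻¹` on `[k b, 1]` (it fixes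
`1 = k (∞)`).  The middle branch jumps from `1` to `-1` at `0`; its value at `0` (namely `k (∞)`) is
the number `e`, which is to be `1` or `-1`. -/
noncomputable def ft (e a b : ℝ) (y : ℝ) : ℝ :=
  if y ≤ -1 then -1 else if 1 ≤ y then 1
  else if y < k a then k (kinv y + 1)
  else if y < k b then (if y = 0 then e else k (-1 / kinv y))
  else k (kinv y - 1)

/-- The set `D_n` of the points of `(-1, 1)` whose orbit hits one of the points `k a`, `0`, `k b`
at a time `j < n`. -/
def Dt (e a b : ℝ) (n : ℕ) : Set ℝ :=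
  {y | y ∈ Ioo (-1 : ℝ) 1 ∧
    ∃ j < n, (ft e a b)^[j] y = k a ∨ (ft e a b)^[j] y = 0 ∨ (ft e a b)^[j] y = k b}

/-- The number of connected components of `(-1, 1) \ D_n`. -/
noncomputable def lapsC (e a b : ℝ) (n : ℕ) : ℕ :=
  Nat.card (ConnectedComponents ↥(Ioo (-1 : ℝ) 1 \ Dt e a b n))

/-- intervals of `[-1, 1]` on which `F` is monotone -/
def IsMonoInterval (F : ℝ → ℝ) (I : Set ℝ) : Prop :=
  I ⊆ Icc (-1) 1 ∧ I.OrdConnected ∧ (MonotoneOn F I ∨ AntitoneOn F I)

/-- The laps of `F`, as the maximal intervals on which `F` is monotone. -/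
def lapSet (F : ℝ → ℝ) : Set (Set ℝ) := {I | Maximal (IsMonoInterval F) I}

/-- The number of maximal intervals of monotonicity of the `n`-th iterate. -/
noncomputable def lapsI (e a b : ℝ) (n : ℕ) : ℕ := (lapSet (ft e a b)^[n]).ncard

variable {a b e : ℝ}

theorem k_strictMono : StrictMono k := by
  intro x y hxy
  have hx : 0 < 1 + |x| := by positivity
  have hy : 0 < 1 + |y| := by positivity
  unfold k
  rw [div_lt_div_iff₀ hx hy]
  rcases le_or_gt 0 x with h | h
  · rw [abs_of_nonneg h, abs_of_nonneg (h.trans hxy.le)]; nlinarith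
  · rcases le_or_gt 0 y with h' | h'
    · rw [abs_of_neg h, abs_of_nonneg h']; nlinarith
    · rw [abs_of_neg h, abs_of_neg h']; nlinarith

theorem abs_k (x : ℝ) : |k x| = |x| / (1 + |x|) := by
  have hx : 0 < 1 + |x| := by positivity
  unfold k
  rw [abs_div, abs_of_pos hx]

theorem abs_k_lt (x : ℝ) : |k x| < 1 := by
  have hx : 0 < 1 + |x| := by positivity
  rw [abs_k, div_lt_one hx]; linarith

theorem kinv_k (x : ℝ) : kinv (k x) = x := by
  have hx : 0 < 1 + |x| := by positivity
  unfold kinv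
  rw [abs_k]
  have : 1 - |x| / (1 + |x|) = 1 / (1 + |x|) := by field_simp; ring
  rw [this]
  unfold k
  field_simp

theorem k_kinv {y : ℝ} (hy : y ∈ Ioo (-1 : ℝ) 1) : k (kinv y) = y := by
  have hy' : |y| < 1 := abs_lt.2 hy
  have h1 : 0 < 1 - |y| := by linarith
  unfold k kinv
  rw [abs_div, abs_of_pos h1]
  have : 1 + |y| / (1 - |y|) = 1 / (1 - |y|) := by field_simp; ring
  rw [this]
  field_simp

theorem k_zero : k 0 = 0 := by simp [k]

theorem k_mem (x : ℝ) : k x ∈ Ioo (-1 : ℝ) 1 := abs_lt.1 (abs_k_lt x)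

theorem ft_k (e : ℝ) {x : ℝ} (hx : x ≠ 0) : ft e a b (k x) = k (f a b x) := by
  have h := k_mem x
  have h0 : k x ≠ 0 := by
    rw [← k_zero]; exact fun hh => hx (k_strictMono.injective hh)
  unfold ft f
  rw [if_neg (not_le.2 h.1), if_neg (not_le.2 h.2), kinv_k, if_neg h0]
  by_cases h1 : x < a
  · rw [if_pos h1, if_pos (k_strictMono h1)]
  · rw [if_neg h1, if_neg (fun hh => h1 (k_strictMono.lt_iff_lt.1 hh))]
    by_cases h2 : x < b
    · rw [if_pos h2, if_pos (k_strictMono h2)]
    · rw [if_neg h2, if_neg (fun hh => h2 (k_strictMono.lt_iff_lt.1 hh))]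

theorem ft_hit (e : ℝ) (n : ℕ) : ∀ x : ℝ, (∃ j < n, (ft e a b)^[j] (k x) = k a ∨
    (ft e a b)^[j] (k x) = 0 ∨ (ft e a b)^[j] (k x) = k b) ↔ x ∈ D a b n := by
  induction n with
  | zero => intro x; simp [D]
  | succ n ih =>
    intro x
    rw [D_succ]
    by_cases hx : x = 0
    · constructor
      · intro _; exact Or.inl (Or.inr (Or.inl hx))
      · intro _
        refine ⟨0, by omega, Or.inr (Or.inl ?_)⟩
        rw [hx]; exact k_zero
    · rw [← ih (f a b x), ← ft_k e hx]
      constructor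
      · rintro ⟨j, hj, h⟩
        rcases j with _ | j
        · left
          simp only [Function.iterate_zero, id] at h
          rcases h with h | h | h
          · exact Or.inl (k_strictMono.injective h)
          · exact Or.inr (Or.inl (k_strictMono.injective (h.trans k_zero.symm)))
          · exact Or.inr (Or.inr (k_strictMono.injective h))
        · right
          exact ⟨j, by omega, by simpa [Function.iterate_succ_apply] using h⟩
      · rintro (h | ⟨j, hj, h⟩)
        · refine ⟨0, by omega, ?_⟩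
          simp only [Function.iterate_zero, id]
          rcases h with h | h | h
          · exact Or.inl (by rw [h])
          · exact absurd h hx
          · exact Or.inr (Or.inr (by rw [h]))
        · exact ⟨j + 1, by omega, by simpa [Function.iterate_succ_apply] using h⟩

theorem Dt_eq (e a b : ℝ) (n : ℕ) : Dt e a b n = k '' D a b n := by
  ext y
  constructor
  · rintro ⟨hy, h⟩
    refine ⟨kinv y, ?_, k_kinv hy⟩
    rw [← ft_hit e, k_kinv hy]
    exact h
  · rintro ⟨x, hx, rfl⟩
    exact ⟨k_mem x, (ft_hit e n x).2 hx⟩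

theorem Dt_ncard (e a b : ℝ) (n : ℕ) : (Dt e a b n).ncard = (D a b n).ncard := by
  rw [Dt_eq, ncard_image_of_injective _ k_strictMono.injective]

theorem Dt_finite (hab : InP a b) (n : ℕ) : (Dt e a b n).Finite := by
  rw [Dt_eq]; exact (D_finite hab n).image _

theorem ft_iter (e : ℝ) (n : ℕ) : ∀ x : ℝ, x ∉ D a b n → (ft e a b)^[n] (k x) = k ((f a b)^[n] x) := by
  induction n with
  | zero => intro x _; rfl
  | succ n ih =>
    intro x hx
    rw [D_succ] at hx
    push Not at hx
    rw [Function.iterate_succ_apply, Function.iterate_succ_apply, ft_k e hx.1.2.1, ih _ hx.2]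

theorem ft_mono_of_avoid (hab : InP a b) (e : ℝ) (n : ℕ) {y z : ℝ} (hy : -1 < y) (hyz : y < z)
    (hz : z < 1) (h : ∀ w ∈ Icc y z, w ∉ Dt e a b n) :
    (ft e a b)^[n] y < (ft e a b)^[n] z := by
  have hy1 : y ∈ Ioo (-1 : ℝ) 1 := ⟨hy, hyz.trans hz⟩
  have hz1 : z ∈ Ioo (-1 : ℝ) 1 := ⟨hy.trans hyz, hz⟩
  have h' : ∀ w ∈ Icc (kinv y) (kinv z), w ∉ D a b n := by
    intro w hw hwD
    refine h (k w) ⟨?_, ?_⟩ (by rw [Dt_eq]; exact ⟨w, hwD, rfl⟩)
    · rw [← k_kinv hy1]; exact k_strictMono.monotone hw.1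
    · rw [← k_kinv hz1]; exact k_strictMono.monotone hw.2
  have hlt : kinv y < kinv z := by
    rw [← k_strictMono.lt_iff_lt, k_kinv hy1, k_kinv hz1]; exact hyz
  have e1 := ft_iter (a := a) (b := b) e n (kinv y) (h' _ ⟨le_rfl, hlt.le⟩)
  have e2 := ft_iter (a := a) (b := b) e n (kinv z) (h' _ ⟨hlt.le, le_rfl⟩)
  rw [k_kinv hy1] at e1
  rw [k_kinv hz1] at e2
  rw [e1, e2]
  exact k_strictMono (mono_of_avoid hab n _ _ hlt h')

/-- an interval of monotonicity is an interval of strict increase -/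
theorem strict_of_mono (hab : InP a b) (e : ℝ) (n : ℕ) {I : Set ℝ}
    (hI : IsMonoInterval (ft e a b)^[n] I) : StrictMonoOn (ft e a b)^[n] I := by
  obtain ⟨hI1, hI2, hI3⟩ := hI
  intro u hu v hv huv
  -- a closed subinterval avoiding the finite set
  have hfin : (Dt e a b n).Finite := Dt_finite hab n
  have hdense : ∃ p q, u < p ∧ p < q ∧ q < v ∧ ∀ w ∈ Icc p q, w ∉ Dt e a b n := by
    have hinf : (Ioo u v \ Dt e a b n).Nonempty :=
      ((Ioo_infinite huv).sdiff hfin).nonempty
    obtain ⟨p, hp, hpD⟩ := hinf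
    have hopen : IsOpen (Ioo u v \ Dt e a b n) := isOpen_Ioo.sdiff hfin.isClosed
    obtain ⟨ε, hε, hball⟩ := Metric.isOpen_iff.1 hopen p ⟨hp, hpD⟩
    have hsub : ∀ w ∈ Icc p (p + ε / 2), w ∈ Ioo u v \ Dt e a b n := by
      intro w hw
      apply hball
      rw [Metric.mem_ball, Real.dist_eq, abs_lt]
      constructor <;> linarith [hw.1, hw.2]
    refine ⟨p, p + ε / 2, hp.1, by linarith, (hsub _ ⟨by linarith, le_rfl⟩).1.2, ?_⟩
    intro w hw
    exact (hsub w hw).2
  obtain ⟨p, q, hup, hpq, hqv, hav⟩ := hdense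
  have hp : p ∈ I := hI2.out hu hv ⟨hup.le, (hpq.trans hqv).le⟩
  have hq : q ∈ I := hI2.out hu hv ⟨(hup.trans hpq).le, hqv.le⟩
  have hm := ft_mono_of_avoid hab e n (by linarith [(hI1 hu).1]) hpq (by linarith [(hI1 hv).2]) hav
  rcases hI3 with h | h
  · exact lt_of_le_of_lt (h hu hp hup.le) (lt_of_lt_of_le hm (h hq hv hqv.le))
  · exact absurd (h hp hq hpq.le) (not_le.2 hm)

/-- a finite cover of `[-1, 1]` by intervals of monotonicity -/
def IsCover (e a b : ℝ) (n : ℕ) (J : Finset (Set ℝ)) : Prop :=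
  (∀ I ∈ J, IsMonoInterval (ft e a b)^[n] I) ∧ ∀ x ∈ Icc (-1 : ℝ) 1, ∃ I ∈ J, x ∈ I

theorem exists_cover (hab : InP a b) (e : ℝ) (n : ℕ) :
    ∃ J : Finset (Set ℝ), J.card ≤ 3 * laps a b n ∧ IsCover e a b n J := by
  classical
  have hD : (Dt e a b n).Finite := Dt_finite hab n
  set N := (Dt e a b n).ncard with hN
  have hNl : laps a b n = N + 1 := by rw [hN, Dt_ncard]; rfl
  let G : ℕ → Set ℝ := fun c =>
    {x | x ∈ Ioo (-1 : ℝ) 1 ∧ x ∉ Dt e a b n ∧ (Dt e a b n ∩ Iio x).ncard = c}
  have hsing : ∀ x ∈ Icc (-1 : ℝ) 1, IsMonoInterval (ft e a b)^[n] {x} := by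
    intro x hx
    refine ⟨by simpa using hx, ordConnected_singleton, Or.inl ?_⟩
    intro u hu v hv _
    rw [mem_singleton_iff] at hu hv
    rw [hu, hv]
  refine ⟨((hD.toFinset.image fun x => ({x} : Set ℝ)) ∪ (Finset.range (N + 1)).image G) ∪
    {{-1}, {1}}, ?_, ?_, ?_⟩
  · refine (Finset.card_union_le _ _).trans ?_
    have h0 := Finset.card_union_le (hD.toFinset.image fun x => ({x} : Set ℝ))
      ((Finset.range (N + 1)).image G)
    have h1 : (hD.toFinset.image fun x => ({x} : Set ℝ)).card ≤ N := by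
      refine Finset.card_image_le.trans ?_
      rw [← ncard_eq_toFinset_card _ hD]
    have h2 : ((Finset.range (N + 1)).image G).card ≤ N + 1 := by
      refine Finset.card_image_le.trans ?_
      rw [Finset.card_range]
    have h3 : ({{-1}, {1}} : Finset (Set ℝ)).card ≤ 2 := Finset.card_le_two
    omega
  · intro I hI
    rw [Finset.mem_union, Finset.mem_union, Finset.mem_image, Finset.mem_image,
      Finset.mem_insert, Finset.mem_singleton] at hI
    rcases hI with (⟨x, hx, rfl⟩ | ⟨c, -, rfl⟩) | rfl | rfl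
    · have hx' : x ∈ Dt e a b n := by simpa using hx
      exact hsing x ⟨hx'.1.1.le, hx'.1.2.le⟩
    · have hav : ∀ x ∈ G c, ∀ y ∈ G c, ∀ z ∈ Icc x y, z ∉ Dt e a b n := by
        intro x hx y hy z hz hzD
        have hzy : z ≠ y := fun h => hy.2.1 (h ▸ hzD)
        have hlt : (Dt e a b n ∩ Iio x).ncard < (Dt e a b n ∩ Iio y).ncard := by
          apply ncard_lt_ncard _ (hD.subset inter_subset_left)
          refine ⟨fun w hw => ⟨hw.1, lt_of_lt_of_le hw.2 (hz.1.trans hz.2)⟩, fun hh => ?_⟩
          have := (hh ⟨hzD, lt_of_le_of_ne hz.2 hzy⟩ : z ∈ Dt e a b n ∩ Iio x).2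
          exact absurd this (not_lt.2 hz.1)
        rw [hx.2.2, hy.2.2] at hlt
        exact lt_irrefl _ hlt
      refine ⟨fun x hx => ⟨hx.1.1.le, hx.1.2.le⟩, ⟨fun x hx y hy z hz => ?_⟩, Or.inl ?_⟩
      · refine ⟨⟨lt_of_lt_of_le hx.1.1 hz.1, lt_of_le_of_lt hz.2 hy.1.2⟩, hav x hx y hy z hz, ?_⟩
        have l1 : (Dt e a b n ∩ Iio x).ncard ≤ (Dt e a b n ∩ Iio z).ncard :=
          ncard_le_ncard (inter_subset_inter_right _ (Iio_subset_Iio hz.1))
            (hD.subset inter_subset_left)
        have l2 : (Dt e a b n ∩ Iio z).ncard ≤ (Dt e a b n ∩ Iio y).ncard :=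
          ncard_le_ncard (inter_subset_inter_right _ (Iio_subset_Iio hz.2))
            (hD.subset inter_subset_left)
        rw [hx.2.2] at l1
        rw [hy.2.2] at l2
        omega
      · intro x hx y hy hxy
        rcases hxy.eq_or_lt with h | h
        · rw [h]
        · exact (ft_mono_of_avoid hab e n hx.1.1 h hy.1.2 (hav x hx y hy)).le
    · exact hsing (-1) (by norm_num)
    · exact hsing 1 (by norm_num)
  · intro x hx
    rcases hx.1.eq_or_lt with h1 | h1
    · refine ⟨{-1}, by simp, ?_⟩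
      rw [mem_singleton_iff]; exact h1.symm
    rcases hx.2.eq_or_lt with h2 | h2
    · refine ⟨{1}, by simp, ?_⟩
      rw [mem_singleton_iff]; exact h2
    by_cases hxD : x ∈ Dt e a b n
    · refine ⟨{x}, ?_, mem_singleton x⟩
      rw [Finset.mem_union, Finset.mem_union, Finset.mem_image]
      exact Or.inl (Or.inl ⟨x, by simpa using hxD, rfl⟩)
    · refine ⟨G (Dt e a b n ∩ Iio x).ncard, ?_, ⟨h1, h2⟩, hxD, rfl⟩
      rw [Finset.mem_union, Finset.mem_union, Finset.mem_image, Finset.mem_image]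
      refine Or.inl (Or.inr ⟨_, ?_, rfl⟩)
      rw [Finset.mem_range]
      have : (Dt e a b n ∩ Iio x).ncard ≤ N := ncard_le_ncard inter_subset_left hD
      omega

theorem laps_le_of_cover (hab : InP a b) (e : ℝ) (n : ℕ) {J : Finset (Set ℝ)}
    (hJ : IsCover e a b n J) : laps a b n ≤ (3 * n + 1) * J.card := by
  classical
  obtain ⟨h1, h2⟩ := hJ
  have hJ1 : 1 ≤ J.card := by
    obtain ⟨I, hI, -⟩ := h2 0 (by norm_num)
    exact Finset.card_pos.2 ⟨I, hI⟩
  have hinj : ∀ I ∈ J, ∀ j < n, InjOn (ft e a b)^[j] I := by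
    intro I hI j hj x hx y hy hxy
    have := (strict_of_mono hab e n (h1 I hI)).injOn
    apply this hx hy
    rw [show n = (n - j) + j by omega, Function.iterate_add_apply, Function.iterate_add_apply]
    rw [hxy]
  let T : Finset (Set ℝ × (ℕ × ℝ)) := J ×ˢ (Finset.range n ×ˢ ({k a, 0, k b} : Finset ℝ))
  have hch : ∀ x ∈ Dt e a b n, ∃ t ∈ T, x ∈ t.1 ∧ (ft e a b)^[t.2.1] x = t.2.2 := by
    rintro x ⟨hx1, j, hj, hx⟩
    obtain ⟨I, hI, hxI⟩ := h2 x ⟨hx1.1.le, hx1.2.le⟩
    refine ⟨(I, (j, (ft e a b)^[j] x)), ?_, hxI, rfl⟩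
    simp only [T, Finset.mem_product, Finset.mem_range]
    refine ⟨hI, hj, ?_⟩
    simpa using hx
  choose! t ht ht1 ht2 using hch
  have hcard : (Dt e a b n).ncard ≤ T.card := by
    have := ncard_le_ncard_of_injOn t (fun x hx => ht x hx) (by
      intro x hx y hy hxy
      have e1 := ht1 x hx
      have e2 := ht1 y hy
      have e3 := ht2 x hx
      have e4 := ht2 y hy
      rw [← hxy] at e2 e4
      have hm := ht x hx
      simp only [T, Finset.mem_product, Finset.mem_range] at hm
      exact hinj _ hm.1 _ hm.2.1 e1 e2 (e3.trans e4.symm)) T.finite_toSet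
    rwa [ncard_coe_finset] at this
  have hT : T.card ≤ J.card * (n * 3) := by
    simp only [T, Finset.card_product, Finset.card_range]
    exact Nat.mul_le_mul_left _ (Nat.mul_le_mul_left _ Finset.card_le_three)
  rw [Dt_ncard] at hcard
  unfold laps
  nlinarith

/-- two intervals of monotonicity with a common point have a union which is one -/
theorem union_mono (hab : InP a b) (e : ℝ) (n : ℕ) {I K : Set ℝ}
    (hI : IsMonoInterval (ft e a b)^[n] I) (hK : IsMonoInterval (ft e a b)^[n] K)
    {x : ℝ} (hxI : x ∈ I) (hxK : x ∈ K) : IsMonoInterval (ft e a b)^[n] (I ∪ K) := by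
  have sI := strict_of_mono hab e n hI
  have sK := strict_of_mono hab e n hK
  refine ⟨union_subset hI.1 hK.1, ?_, Or.inl ?_⟩
  · have h1 : IsPreconnected I := hI.2.1.isPreconnected
    have h2 : IsPreconnected K := hK.2.1.isPreconnected
    exact (h1.union x hxI hxK h2).ordConnected
  · -- general fact: points on both sides of `x`
    have key : ∀ (A B : Set ℝ), A.OrdConnected → B.OrdConnected →
        StrictMonoOn (ft e a b)^[n] A → StrictMonoOn (ft e a b)^[n] B → x ∈ A → x ∈ B →
        ∀ u ∈ A, ∀ v ∈ B, u ≤ v → (ft e a b)^[n] u ≤ (ft e a b)^[n] v := by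
      intro A B hA hB sA sB hxA hxB u hu v hv huv
      rcases le_total u x with h1 | h1
      · rcases le_total x v with h2 | h2
        · exact (sA.monotoneOn hu hxA h1).trans (sB.monotoneOn hxB hv h2)
        · -- u ≤ v ≤ x, v ∈ A
          have hvA : v ∈ A := hA.out hu hxA ⟨huv, h2⟩
          exact sA.monotoneOn hu hvA huv
      · have huB : u ∈ B := hB.out hxB hv ⟨h1, huv⟩
        exact sB.monotoneOn huB hv huv
    rintro u (hu | hu) v (hv | hv) huv
    · exact sI.monotoneOn hu hv huv
    · exact key I K hI.2.1 hK.2.1 sI sK hxI hxK u hu v hv huv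
    · exact key K I hK.2.1 hI.2.1 sK sI hxK hxI u hu v hv huv
    · exact sK.monotoneOn hu hv huv

/-- every point lies in a maximal interval of monotonicity -/
theorem exists_maximal (hab : InP a b) (e : ℝ) (n : ℕ) {x : ℝ} (hx : x ∈ Icc (-1 : ℝ) 1) :
    ∃ I ∈ lapSet (ft e a b)^[n], x ∈ I := by
  let U : Set ℝ := ⋃₀ {I | IsMonoInterval (ft e a b)^[n] I ∧ x ∈ I}
  have hsing : IsMonoInterval (ft e a b)^[n] {x} := by
    refine ⟨by simpa using hx, ordConnected_singleton, Or.inl ?_⟩
    intro u hu v hv _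
    rw [mem_singleton_iff] at hu hv
    rw [hu, hv]
  have hxU : x ∈ U := ⟨{x}, ⟨hsing, mem_singleton x⟩, mem_singleton x⟩
  have hU : IsMonoInterval (ft e a b)^[n] U := by
    refine ⟨?_, ?_, Or.inl ?_⟩
    · rintro y ⟨I, ⟨hI, -⟩, hy⟩
      exact hI.1 hy
    · have : IsPreconnected U :=
        isPreconnected_sUnion x _ (fun I hI => hI.2) (fun I hI => hI.1.2.1.isPreconnected)
      exact this.ordConnected
    · rintro u ⟨I, ⟨hI, hxI⟩, hu⟩ v ⟨K, ⟨hK, hxK⟩, hv⟩ huv
      exact (strict_of_mono hab e n (union_mono hab e n hI hK hxI hxK)).monotoneOn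
        (Or.inl hu) (Or.inr hv) huv
  refine ⟨U, ⟨hU, fun V hV hUV y hy => ?_⟩, hxU⟩
  exact ⟨V, ⟨hV, hUV hxU⟩, hy⟩

theorem lapSet_disj (hab : InP a b) (e : ℝ) (n : ℕ) {I K : Set ℝ}
    (hI : I ∈ lapSet (ft e a b)^[n]) (hK : IsMonoInterval (ft e a b)^[n] K)
    {x : ℝ} (hxI : x ∈ I) (hxK : x ∈ K) : K ⊆ I := by
  have h := union_mono hab e n hI.1 hK hxI hxK
  have h2 : I ∪ K ⊆ I := hI.2 h subset_union_left
  exact subset_union_right.trans h2

theorem lapSet_spec (hab : InP a b) (e : ℝ) (n : ℕ) :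
    (lapSet (ft e a b)^[n]).Finite ∧ lapsI e a b n ≤ 3 * laps a b n ∧
      laps a b n ≤ (3 * n + 1) * lapsI e a b n ∧ 1 ≤ lapsI e a b n := by
  classical
  obtain ⟨J, hJ1, hJ2, hJ3⟩ := exists_cover hab e n
  have hne : ∀ I ∈ lapSet (ft e a b)^[n], I.Nonempty := by
    intro I hI
    by_contra hcon
    rw [not_nonempty_iff_eq_empty] at hcon
    obtain ⟨K, hK, hK0⟩ := exists_maximal hab e n (x := 0) (by norm_num)
    have := hI.2 hK.1 (by rw [hcon]; exact empty_subset _) hK0
    rw [hcon] at this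
    exact this
  have hch : ∀ I ∈ lapSet (ft e a b)^[n], ∃ K ∈ J, (K ∩ I).Nonempty := by
    intro I hI
    obtain ⟨x, hx⟩ := hne I hI
    obtain ⟨K, hK, hxK⟩ := hJ3 x (hI.1.1 hx)
    exact ⟨K, hK, x, hxK, hx⟩
  choose! t ht1 ht2 using hch
  have hinj : InjOn t (lapSet (ft e a b)^[n]) := by
    intro I hI I' hI' h
    obtain ⟨x, hxK, hxI⟩ := ht2 I hI
    obtain ⟨x', hxK', hxI'⟩ := ht2 I' hI'
    have s1 : t I ⊆ I := lapSet_disj hab e n hI (hJ2 _ (ht1 I hI)) hxI hxK
    have s2 : I' ⊆ I := lapSet_disj hab e n hI hI'.1 (s1 (h ▸ hxK')) hxI'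
    have s3 : I ⊆ I' := lapSet_disj hab e n hI' hI.1 hxI' (s1 (h ▸ hxK'))
    exact Subset.antisymm s3 s2
  have hfin : (lapSet (ft e a b)^[n]).Finite := by
    apply Set.Finite.of_finite_image (J.finite_toSet.subset _) hinj
    rintro _ ⟨I, hI, rfl⟩
    exact ht1 I hI
  have hle : lapsI e a b n ≤ J.card := by
    have := ncard_le_ncard_of_injOn t (fun I hI => ht1 I hI) hinj J.finite_toSet
    rwa [ncard_coe_finset] at this
  have hcov : IsCover e a b n hfin.toFinset := by
    refine ⟨fun I hI => ?_, fun x hx => ?_⟩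
    · exact ((Set.Finite.mem_toFinset hfin).1 hI).1
    · obtain ⟨I, hI, hxI⟩ := exists_maximal hab e n hx
      exact ⟨I, (Set.Finite.mem_toFinset hfin).2 hI, hxI⟩
  have h2 := laps_le_of_cover hab e n hcov
  rw [← ncard_eq_toFinset_card _ hfin] at h2
  refine ⟨hfin, hle.trans hJ1, h2, ?_⟩
  by_contra hcon
  have h0 : lapsI e a b n = 0 := by omega
  have h0' : (lapSet (ft e a b)^[n]).ncard = 0 := h0
  rw [h0', mul_zero] at h2
  have := laps_pos a b n
  omega

/-- connected components of the complement of a finite set -/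
theorem card_components {F : Set ℝ} (hF : F.Finite) (hF' : F ⊆ Ioo (-1 : ℝ) 1) :
    Nat.card (ConnectedComponents ↥(Ioo (-1 : ℝ) 1 \ F)) = F.ncard + 1 := by
  classical
  let c : ↥(Ioo (-1 : ℝ) 1 \ F) → ℕ := fun x => (F ∩ Iio x.1).ncard
  have hlt : ∀ x y : ℝ, (∃ z ∈ F, x ≤ z ∧ z < y) → x ≤ y →
      (F ∩ Iio x).ncard < (F ∩ Iio y).ncard := by
    rintro x y ⟨z, hz, h1, h2⟩ hxy
    apply ncard_lt_ncard _ (hF.subset inter_subset_left)
    refine ⟨fun w hw => ⟨hw.1, lt_of_lt_of_le hw.2 hxy⟩, fun hh => ?_⟩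
    have := (hh ⟨hz, h2⟩ : z ∈ F ∩ Iio x).2
    exact absurd this (not_lt.2 h1)
  -- constant on components
  have hconst : ∀ x y : ↥(Ioo (-1 : ℝ) 1 \ F), x.1 ≤ y.1 →
      (connectedComponent x = connectedComponent y ↔ c x = c y) := by
    intro x y hxy
    have hiff : c x = c y ↔ ∀ z ∈ Icc x.1 y.1, z ∉ F := by
      constructor
      · intro h z hz hzF
        have hzy : z ≠ y.1 := fun hh => y.2.2 (hh ▸ hzF)
        exact absurd h (hlt _ _ ⟨z, hzF, hz.1, lt_of_le_of_ne hz.2 hzy⟩ hxy).ne
      · intro h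
        change (F ∩ Iio x.1).ncard = (F ∩ Iio y.1).ncard
        congr 1
        ext z
        constructor
        · rintro ⟨h1, h2⟩
          exact ⟨h1, lt_of_lt_of_le h2 hxy⟩
        · rintro ⟨h1, h2⟩
          refine ⟨h1, ?_⟩
          by_contra hcon
          exact h z ⟨not_lt.1 hcon, le_of_lt h2⟩ h1
    rw [hiff]
    constructor
    · intro h z hz
      have h1 : IsPreconnected (Subtype.val '' connectedComponent x) :=
        isPreconnected_connectedComponent.image _ continuous_subtype_val.continuousOn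
      have h2 := h1.ordConnected.out (mem_image_of_mem _ mem_connectedComponent)
        (mem_image_of_mem _ (h ▸ mem_connectedComponent (x := y))) hz
      obtain ⟨w, -, rfl⟩ := h2
      exact w.2.2
    · intro h
      have himg : Subtype.val '' ((Subtype.val : ↥(Ioo (-1 : ℝ) 1 \ F) → ℝ) ⁻¹' Icc x.1 y.1) =
          Icc x.1 y.1 := by
        rw [Subtype.image_preimage_coe]
        apply inter_eq_right.2
        intro z hz
        exact ⟨⟨lt_of_lt_of_le x.2.1.1 hz.1, lt_of_le_of_lt hz.2 y.2.1.2⟩, h z hz⟩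
      have hpre : IsPreconnected ((Subtype.val : ↥(Ioo (-1 : ℝ) 1 \ F) → ℝ) ⁻¹' Icc x.1 y.1) := by
        rw [← Topology.IsInducing.subtypeVal.isPreconnected_image, himg]
        exact isPreconnected_Icc
      have h3 := hpre.subset_connectedComponent (x := x) ⟨le_rfl, hxy⟩
      have h4 : y ∈ connectedComponent x := h3 ⟨hxy, le_rfl⟩
      exact (connectedComponent_eq h4)
  have hconst' : ∀ x y : ↥(Ioo (-1 : ℝ) 1 \ F),
      (connectedComponent x = connectedComponent y ↔ c x = c y) := by
    intro x y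
    rcases le_total x.1 y.1 with h | h
    · exact hconst x y h
    · rw [eq_comm, hconst y x h, eq_comm]
  -- the induced map
  let C : ConnectedComponents ↥(Ioo (-1 : ℝ) 1 \ F) → ℕ :=
    Quotient.lift c (fun x y h => (hconst' x y).1 h)
  have hCinj : Function.Injective C := by
    intro p q
    induction p using Quotient.inductionOn with | _ x =>
    induction q using Quotient.inductionOn with | _ y =>
    intro h
    exact Quotient.sound ((hconst' x y).2 h)
  have hrange : range C = (Finset.range (F.ncard + 1) : Set ℕ) := by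
    apply Subset.antisymm
    · rintro _ ⟨p, rfl⟩
      induction p using Quotient.inductionOn with | _ x =>
      rw [Finset.coe_range, mem_Iio]
      have : (F ∩ Iio x.1).ncard ≤ F.ncard := ncard_le_ncard inter_subset_left hF
      exact Nat.lt_succ_of_le this
    · -- enough points
      -- a point just to the right of a point of `[-1, 1)`
      have hright : ∀ d ∈ Ico (-1 : ℝ) 1, ∃ x : ↥(Ioo (-1 : ℝ) 1 \ F), c x = (F ∩ Iic d).ncard := by
        intro d hd
        have hG : (F ∩ Ioi d ∪ {1}).Finite := (hF.subset inter_subset_left).union (finite_singleton 1)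
        obtain ⟨m, hm, hmin⟩ := hG.exists_minimal ⟨1, Or.inr rfl⟩
        have hdm : d < m := by
          rcases hm with hm | hm
          · exact hm.2
          · rw [mem_singleton_iff] at hm; rw [hm]; exact hd.2
        have hm1 : m ≤ 1 := by
          rcases hm with hm | hm
          · exact (hF' hm.1).2.le
          · exact le_of_eq hm
        have hmin' : ∀ z ∈ F, d < z → m ≤ z := by
          intro z hz hdz
          by_contra hcon
          have := hmin (y := z) (Or.inl ⟨hz, hdz⟩) (not_le.1 hcon).le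
          exact hcon this
        refine ⟨⟨(d + m) / 2, ⟨?_, ?_⟩, ?_⟩, ?_⟩
        · linarith [hd.1]
        · linarith
        · intro hz
          have := hmin' _ hz (by linarith)
          linarith
        · change (F ∩ Iio ((d + m) / 2)).ncard = (F ∩ Iic d).ncard
          congr 1
          ext z
          constructor
          · rintro ⟨h1, h2⟩
            refine ⟨h1, ?_⟩
            by_contra hcon
            have := hmin' z h1 (not_le.1 hcon)
            have h2' : z < (d + m) / 2 := h2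
            linarith
          · rintro ⟨h1, h2⟩
            refine ⟨h1, ?_⟩
            have h2' : z ≤ d := h2
            change z < (d + m) / 2
            linarith
      -- cardinality
      let V : Finset ℕ := insert 0 (hF.toFinset.image fun d => (F ∩ Iic d).ncard)
      have hV1 : V ⊆ Finset.range (F.ncard + 1) := by
        intro v hv
        rw [Finset.mem_insert, Finset.mem_image] at hv
        rw [Finset.mem_range]
        rcases hv with rfl | ⟨d, -, rfl⟩
        · omega
        · exact Nat.lt_succ_of_le (ncard_le_ncard inter_subset_left hF)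
      have hinjd : InjOn (fun d => (F ∩ Iic d).ncard) (hF.toFinset : Set ℝ) := by
        have hlt' : ∀ d ∈ F, ∀ d' ∈ F, d < d' → (F ∩ Iic d).ncard < (F ∩ Iic d').ncard := by
          intro d hd d' hd' hdd
          apply ncard_lt_ncard _ (hF.subset inter_subset_left)
          refine ⟨fun w hw => ⟨hw.1, (le_of_lt (lt_of_le_of_lt hw.2 hdd) : w ≤ d')⟩, fun hh => ?_⟩
          have h5 : d' ≤ d := (hh ⟨hd', le_refl d'⟩ : d' ∈ F ∩ Iic d).2
          exact absurd h5 (not_le.2 hdd)
        intro d hd d' hd' h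
        have hd1 : d ∈ F := by simpa using hd
        have hd2 : d' ∈ F := by simpa using hd'
        rcases lt_trichotomy d d' with h' | h' | h'
        · exact absurd h (hlt' d hd1 d' hd2 h').ne
        · exact h'
        · exact absurd h.symm (hlt' d' hd2 d hd1 h').ne
      have hV2 : V.card = F.ncard + 1 := by
        rw [Finset.card_insert_of_notMem, Finset.card_image_of_injOn hinjd,
          ← ncard_eq_toFinset_card _ hF]
        rw [Finset.mem_image]
        rintro ⟨d, hd, hd0⟩
        have hd1 : d ∈ F := by simpa using hd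
        rw [ncard_eq_zero (hF.subset inter_subset_left)] at hd0
        have : d ∈ F ∩ Iic d := ⟨hd1, le_refl d⟩
        rw [hd0] at this
        exact this
      have hV : V = Finset.range (F.ncard + 1) := by
        apply Finset.eq_of_subset_of_card_le hV1
        rw [hV2, Finset.card_range]
      rw [← hV]
      intro v hv
      have hv' : v ∈ V := hv
      rw [Finset.mem_insert, Finset.mem_image] at hv'
      have hfromc : ∀ x : ↥(Ioo (-1 : ℝ) 1 \ F), c x ∈ range C := fun x =>
        ⟨Quotient.mk _ x, rfl⟩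
      rcases hv' with rfl | ⟨d, hd, rfl⟩
      · obtain ⟨x, hx⟩ := hright (-1) (by norm_num)
        have h0 : F ∩ Iic (-1 : ℝ) = ∅ := by
          ext z
          simp only [mem_inter_iff, mem_Iic, mem_empty_iff_false, iff_false, not_and, not_le]
          intro hz
          exact (hF' hz).1
        rw [h0, ncard_empty] at hx
        rw [← hx]
        exact hfromc x
      · have hd1 : d ∈ F := by simpa using hd
        obtain ⟨x, hx⟩ := hright d ⟨(hF' hd1).1.le, (hF' hd1).2⟩
        change (F ∩ Iic d).ncard ∈ range C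
        rw [← hx]
        exact hfromc x
  calc Nat.card (ConnectedComponents ↥(Ioo (-1 : ℝ) 1 \ F))
      = Nat.card (range C) := (Nat.card_range_of_injective hCinj).symm
    _ = (range C).ncard := rfl
    _ = F.ncard + 1 := by rw [hrange, ncard_coe_finset, Finset.card_range]

theorem lapsC_eq (hab : InP a b) (e : ℝ) (n : ℕ) : lapsC e a b n = laps a b n := by
  unfold lapsC laps
  rw [card_components (Dt_finite hab n) (fun x hx => hx.1), Dt_ncard]

theorem entropy_lapsC (hab : InP a b) (e h : ℝ) :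
    Tendsto (fun n : ℕ => Real.log (lapsC e a b n) / n) atTop (𝓝 h) ↔ IsEntropy a b h := by
  unfold IsEntropy
  simp only [lapsC_eq hab]

/-- both ways of counting laps give the same entropy -/
theorem entropy_lapsI_of (hab : InP a b) (e : ℝ) {h : ℝ} (hh : IsEntropy a b h) :
    Tendsto (fun n : ℕ => Real.log (lapsI e a b n) / n) atTop (𝓝 h) := by
  have l1 : Tendsto (fun n : ℕ => Real.log (laps a b n) / n - Real.log (3 * (n + 1)) / n) atTop
      (𝓝 (h - 0)) := hh.sub (tendsto_log_lin 3 (by norm_num))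
  have l2 : Tendsto (fun n : ℕ => Real.log (laps a b n) / n + Real.log (3 * (n + 1)) / n) atTop
      (𝓝 (h + 0)) := hh.add (tendsto_log_lin 3 (by norm_num))
  rw [sub_zero] at l1
  rw [add_zero] at l2
  refine tendsto_of_tendsto_of_tendsto_of_le_of_le l1 l2 ?_ ?_
  · intro n
    obtain ⟨-, h1, h2, h3⟩ := lapSet_spec hab e n
    have p1 : (0 : ℝ) < laps a b n := by exact_mod_cast laps_pos a b n
    have p2 : (0 : ℝ) < lapsI e a b n := by exact_mod_cast h3
    simp only
    rw [← sub_div]
    apply div_le_div_of_nonneg_right _ (Nat.cast_nonneg n)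
    rw [sub_le_iff_le_add, ← Real.log_mul p2.ne' (by positivity)]
    apply Real.log_le_log p1
    have : (laps a b n : ℝ) ≤ (3 * n + 1) * lapsI e a b n := by exact_mod_cast h2
    nlinarith
  · intro n
    obtain ⟨-, h1, h2, h3⟩ := lapSet_spec hab e n
    have p1 : (0 : ℝ) < laps a b n := by exact_mod_cast laps_pos a b n
    have p2 : (0 : ℝ) < lapsI e a b n := by exact_mod_cast h3
    simp only
    rw [← add_div]
    apply div_le_div_of_nonneg_right _ (Nat.cast_nonneg n)
    rw [← Real.log_mul p1.ne' (by positivity)]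
    apply Real.log_le_log p2
    have : (lapsI e a b n : ℝ) ≤ 3 * laps a b n := by exact_mod_cast h1
    have hn : (0 : ℝ) ≤ n := Nat.cast_nonneg n
    nlinarith [mul_nonneg hn p1.le]

theorem entropy_lapsI (hab : InP a b) (e h : ℝ) :
    Tendsto (fun n : ℕ => Real.log (lapsI e a b n) / n) atTop (𝓝 h) ↔ IsEntropy a b h := by
  constructor
  · intro hh
    obtain ⟨h', hh'⟩ := exists_entropy hab
    have := tendsto_nhds_unique hh (entropy_lapsI_of hab e hh')
    rw [this]; exact hh'
  · exact entropy_lapsI_of hab e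

end Pool.Agent.R660.CF
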