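import Pool.Agent.R660.CF.Basic

/-!
# The upper bound `h ≤ log φ`
-/

set_option autoImplicit false

namespace Pool.Agent.R660.CF

open Filter Topology Set

section words

variable {α : Type} (s : α → α) (u : Bool → α → α) (c : α)

open Classical in
/-- the images of `c` under the reduced words of length `m` which begin with `u ε`, and with
`s (u ε)` -/
noncomputable def XY : ℕ → (Bool → Finset α) × (Bool → Finset α)
  | 0 => (fun _ => ∅, fun _ => ∅)
  | m + 1 => (fun ε => ((XY m).1 ε ∪ (XY m).2 (!ε) ∪
        (if m = 0 then {c} else if m = 1 then {s c} else ∅)).image (u ε),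
      fun ε => ((XY m).1 ε).image s)

theorem X_succ (m : ℕ) (ε : Bool) (x : α) : x ∈ (XY s u c (m + 1)).1 ε ↔
    ∃ y, (y ∈ (XY s u c m).1 ε ∨ y ∈ (XY s u c m).2 (!ε) ∨ (m = 0 ∧ y = c) ∨ (m = 1 ∧ y = s c)) ∧
      u ε y = x := by
  classical
  rw [XY]
  simp only [Finset.mem_image, Finset.mem_union]
  refine exists_congr fun y => and_congr_left fun _ => ?_
  by_cases h0 : m = 0
  · subst h0; simp [or_assoc]
  · by_cases h1 : m = 1
    · subst h1; simp [or_assoc]
    · simp [h0, h1]

theorem Y_succ (m : ℕ) (ε : Bool) (x : α) : x ∈ (XY s u c (m + 1)).2 ε ↔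
    ∃ y, y ∈ (XY s u c m).1 ε ∧ s y = x := by
  classical
  rw [XY]
  simp only [Finset.mem_image]

theorem XY_zero (ε : Bool) (x : α) : x ∉ (XY s u c 0).1 ε ∧ x ∉ (XY s u c 0).2 ε := by
  rw [XY]; simp

theorem XY_card (m : ℕ) (ε : Bool) : ((XY s u c m).1 ε).card + 1 ≤ Nat.fib (m + 2) ∧
    ((XY s u c m).2 ε).card + 1 ≤ Nat.fib (m + 1) := by
  classical
  induction m generalizing ε with
  | zero => rw [XY]; simp
  | succ m ih =>
    constructor
    · have h1 : ((XY s u c (m + 1)).1 ε).card ≤
          ((XY s u c m).1 ε).card + ((XY s u c m).2 (!ε)).card + 1 := by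
        rw [XY]
        refine Finset.card_image_le.trans ((Finset.card_union_le _ _).trans ?_)
        refine Nat.add_le_add (Finset.card_union_le _ _) ?_
        split_ifs <;> simp
      have h2 := (ih ε).1
      have h3 := (ih (!ε)).2
      have h4 : Nat.fib (m + 1 + 2) = Nat.fib (m + 1) + Nat.fib (m + 2) := Nat.fib_add_two
      omega
    · have h1 : ((XY s u c (m + 1)).2 ε).card ≤ ((XY s u c m).1 ε).card := by
        rw [XY]; exact Finset.card_image_le
      have h2 := (ih ε).1
      have h3 : m + 1 + 1 = m + 2 := rfl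
      rw [h3]
      omega

/-- the points reached from `c` by words of length at most `n` -/
def InL (n : ℕ) (x : α) : Prop :=
  x = c ∨ x = s c ∨ ∃ m ≤ n + 1, ∃ ε, x ∈ (XY s u c m).1 ε ∨ x ∈ (XY s u c m).2 ε

variable {s u c}

theorem InL_s (hs : ∀ x, s (s x) = x) {n : ℕ} {x : α} (h : InL s u c n x) :
    InL s u c (n + 1) (s x) := by
  rcases h with rfl | rfl | ⟨m, hm, ε, h | h⟩
  · exact Or.inr (Or.inl rfl)
  · exact Or.inl (hs _)
  · refine Or.inr (Or.inr ⟨m + 1, by omega, ε, Or.inr ?_⟩)
    rw [Y_succ]; exact ⟨x, h, rfl⟩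
  · rcases m with _ | m
    · exact absurd h (XY_zero s u c ε x).2
    · rw [Y_succ] at h
      obtain ⟨y, hy, rfl⟩ := h
      rw [hs]
      exact Or.inr (Or.inr ⟨m, by omega, ε, Or.inl hy⟩)

theorem InL_u (hs : ∀ x, s (s x) = x) (hu : ∀ ε x, u (!ε) (u ε x) = x)
    (hr : ∀ ε x, u ε (s (u ε x)) = s (u (!ε) (s x))) {n : ℕ} {x : α} (δ : Bool)
    (h : InL s u c n x) : InL s u c (n + 1) (u δ x) := by
  have hX1 : ∀ ε, u ε c ∈ (XY s u c 1).1 ε := by
    intro ε; rw [X_succ]; exact ⟨c, Or.inr (Or.inr (Or.inl ⟨rfl, rfl⟩)), rfl⟩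
  have hX2 : ∀ ε, u ε (s c) ∈ (XY s u c 2).1 ε := by
    intro ε; rw [X_succ]; exact ⟨s c, Or.inr (Or.inr (Or.inr ⟨rfl, rfl⟩)), rfl⟩
  rcases h with rfl | rfl | ⟨m, hm, ε, h | h⟩
  · exact Or.inr (Or.inr ⟨1, by omega, δ, Or.inl (hX1 δ)⟩)
  · exact Or.inr (Or.inr ⟨2, by omega, δ, Or.inl (hX2 δ)⟩)
  · by_cases hδ : δ = ε
    · subst hδ
      refine Or.inr (Or.inr ⟨m + 1, by omega, δ, Or.inl ?_⟩)
      rw [X_succ]; exact ⟨x, Or.inl h, rfl⟩
    · have hδ' : δ = !ε := by cases δ <;> cases ε <;> simp_all
      subst hδ'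
      rcases m with _ | m
      · exact absurd h (XY_zero s u c ε x).1
      · rw [X_succ] at h
        obtain ⟨y, hy, rfl⟩ := h
        rw [hu]
        rcases hy with hy | hy | ⟨-, rfl⟩ | ⟨-, rfl⟩
        · exact Or.inr (Or.inr ⟨m, by omega, ε, Or.inl hy⟩)
        · exact Or.inr (Or.inr ⟨m, by omega, !ε, Or.inr hy⟩)
        · exact Or.inl rfl
        · exact Or.inr (Or.inl rfl)
  · by_cases hδ : δ = ε
    · subst hδ
      rcases m with _ | m
      · exact absurd h (XY_zero s u c δ x).2
      rw [Y_succ] at h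
      obtain ⟨y, hy, rfl⟩ := h
      rcases m with _ | m
      · exact absurd hy (XY_zero s u c δ y).1
      rw [X_succ] at hy
      obtain ⟨z, hz, rfl⟩ := hy
      rw [hr]
      have hYX : ∀ {k : ℕ} {w : α}, w ∈ (XY s u c k).1 (!δ) → s w ∈ (XY s u c (k + 1)).2 (!δ) := by
        intro k w hw; rw [Y_succ]; exact ⟨w, hw, rfl⟩
      rcases hz with hz | hz | ⟨rfl, rfl⟩ | ⟨rfl, rfl⟩
      · refine Or.inr (Or.inr ⟨m + 3, by omega, !δ, Or.inr (hYX ?_)⟩)
        rw [X_succ]
        refine ⟨s z, Or.inr (Or.inl ?_), rfl⟩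
        rw [Y_succ, Bool.not_not]
        exact ⟨z, hz, rfl⟩
      · rcases m with _ | m
        · exact absurd hz (XY_zero s u c (!δ) z).2
        rw [Y_succ] at hz
        obtain ⟨w, hw, rfl⟩ := hz
        rw [hs]
        refine Or.inr (Or.inr ⟨m + 2, by omega, !δ, Or.inr (hYX ?_)⟩)
        rw [X_succ]
        exact ⟨w, Or.inl hw, rfl⟩
      · exact Or.inr (Or.inr ⟨3, by omega, !δ, Or.inr (hYX (hX2 _))⟩)
      · rw [hs]
        exact Or.inr (Or.inr ⟨2, by omega, !δ, Or.inr (hYX (hX1 _))⟩)
    · have hδ' : ε = !δ := by cases δ <;> cases ε <;> simp_all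
      subst hδ'
      refine Or.inr (Or.inr ⟨m + 1, by omega, δ, Or.inl ?_⟩)
      rw [X_succ]; exact ⟨x, Or.inr (Or.inl h), rfl⟩

theorem sum_fib (N : ℕ) : ∑ m ∈ Finset.range N, Nat.fib (m + 3) ≤ Nat.fib (N + 4) := by
  induction N with
  | zero => simp
  | succ N ih =>
    rw [Finset.sum_range_succ]
    have : Nat.fib (N + 1 + 4) = Nat.fib (N + 3) + Nat.fib (N + 4) := Nat.fib_add_two
    omega

theorem InL_card (s : α → α) (u : Bool → α → α) (c : α) (n : ℕ) :
    ∃ L : Finset α, L.card ≤ 2 + 2 * Nat.fib (n + 6) ∧ ∀ x, InL s u c n x → x ∈ L := by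
  classical
  refine ⟨{c, s c} ∪ (Finset.range (n + 2)).biUnion fun m =>
    (Finset.univ : Finset Bool).biUnion fun ε => (XY s u c m).1 ε ∪ (XY s u c m).2 ε, ?_, ?_⟩
  · refine (Finset.card_union_le _ _).trans (Nat.add_le_add Finset.card_le_two ?_)
    refine Finset.card_biUnion_le.trans ?_
    calc ∑ m ∈ Finset.range (n + 2), ((Finset.univ : Finset Bool).biUnion fun ε =>
          (XY s u c m).1 ε ∪ (XY s u c m).2 ε).card
        ≤ ∑ m ∈ Finset.range (n + 2), 2 * Nat.fib (m + 3) := by
          apply Finset.sum_le_sum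
          intro m _
          refine Finset.card_biUnion_le.trans ?_
          rw [Fintype.sum_bool]
          have h1 := XY_card s u c m true
          have h2 := XY_card s u c m false
          have h3 := Finset.card_union_le ((XY s u c m).1 true) ((XY s u c m).2 true)
          have h4 := Finset.card_union_le ((XY s u c m).1 false) ((XY s u c m).2 false)
          have h5 : Nat.fib (m + 3) = Nat.fib (m + 1) + Nat.fib (m + 2) := Nat.fib_add_two
          omega
      _ = 2 * ∑ m ∈ Finset.range (n + 2), Nat.fib (m + 3) := by rw [Finset.mul_sum]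
      _ ≤ 2 * Nat.fib (n + 6) := Nat.mul_le_mul_left _ (sum_fib (n + 2))
  · rintro x (rfl | rfl | ⟨m, hm, ε, h⟩)
    · simp
    · simp
    · rw [Finset.mem_union, Finset.mem_biUnion]
      refine Or.inr ⟨m, by rw [Finset.mem_range]; omega, ?_⟩
      rw [Finset.mem_biUnion]
      exact ⟨ε, Finset.mem_univ _, Finset.mem_union.2 h⟩

end words

/-- `-1/x` on the projective line (`none` is the point at infinity) -/
noncomputable def sP : Option ℝ → Option ℝ
  | none => some 0
  | some x => if x = 0 then none else some (-1 / x)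

/-- `x ± 1` on the projective line -/
noncomputable def uP : Bool → Option ℝ → Option ℝ
  | _, none => none
  | true, some x => some (x + 1)
  | false, some x => some (x - 1)

theorem sP_sP (x : Option ℝ) : sP (sP x) = x := by
  rcases x with _ | x
  · simp [sP]
  · by_cases h : x = 0
    · simp [sP, h]
    · have : -1 / x ≠ 0 := div_ne_zero (by norm_num) h
      simp only [sP, if_neg h, if_neg this]
      congr 1
      field_simp

theorem uP_uP (ε : Bool) (x : Option ℝ) : uP (!ε) (uP ε x) = x := by
  rcases x with _ | x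
  · cases ε <;> simp [uP]
  · cases ε <;> simp [uP]

theorem uP_rel (ε : Bool) (x : Option ℝ) : uP ε (sP (uP ε x)) = sP (uP (!ε) (sP x)) := by
  rcases x with _ | x
  · cases ε <;> simp [uP, sP]
  · rcases eq_or_ne x 0 with h | h
    · subst h
      cases ε <;> simp [uP, sP]
    · cases ε
      · -- `x ↦ x - 1`
        rcases eq_or_ne (x - 1) 0 with h1 | h1
        · have h2 : -1 / x + 1 = 0 := by field_simp; linarith
          simp only [uP, sP, Bool.not_false, if_pos h1, if_neg h, if_pos h2]
        · have h2 : -1 / x + 1 ≠ 0 := by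
            intro hh; apply h1; field_simp at hh; linarith
          simp only [uP, sP, Bool.not_false, if_neg h1, if_neg h, if_neg h2]
          congr 1
          have h3 : -1 + x ≠ 0 := by intro hh; apply h1; linarith
          have h4 : -1 / x + 1 = (-1 + x) / x := by field_simp
          rw [h4]
          field_simp
          ring
      · rcases eq_or_ne (x + 1) 0 with h1 | h1
        · have h2 : -1 / x - 1 = 0 := by field_simp; linarith
          simp only [uP, sP, Bool.not_true, if_pos h1, if_neg h, if_pos h2]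
        · have h2 : -1 / x - 1 ≠ 0 := by
            intro hh; apply h1; field_simp at hh; linarith
          simp only [uP, sP, Bool.not_true, if_neg h1, if_neg h, if_neg h2]
          congr 1
          have h4 : -1 / x - 1 = -(x + 1) / x := by field_simp; ring
          rw [h4]
          field_simp
          ring

variable {a b : ℝ}

theorem D_InL (hab : InP a b) (n : ℕ) : ∀ x ∈ D a b n,
    InL sP uP (some a) n (some x) ∨ InL sP uP (some 0) n (some x) ∨
      InL sP uP (some b) n (some x) := by
  induction n with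
  | zero => intro x hx; rw [D_zero] at hx; exact absurd hx (notMem_empty x)
  | succ n ih =>
    intro x hx
    rw [D_succ] at hx
    by_cases h0 : x = a ∨ x = 0 ∨ x = b
    · rcases h0 with rfl | rfl | rfl
      · exact Or.inl (Or.inl rfl)
      · exact Or.inr (Or.inl (Or.inl rfl))
      · exact Or.inr (Or.inr (Or.inl rfl))
    · have hf := ih _ (hx.resolve_left h0)
      push Not at h0
      obtain ⟨ha, h0, hb⟩ := h0
      have key : ∀ c, InL sP uP c n (some (f a b x)) → InL sP uP c (n + 1) (some x) := by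
        intro c hc
        rcases lt_or_ge x a with h1 | h1
        · have := InL_u sP_sP uP_uP uP_rel false hc
          rw [f_lt h1] at this
          simpa [uP] using this
        · rcases lt_or_ge x b with h2 | h2
          · have := InL_s sP_sP hc
            rw [f_mid h1 h2] at this
            have h3 : -1 / x ≠ 0 := div_ne_zero (by norm_num) h0
            have h4 : -1 / (-1 / x) = x := by field_simp
            simpa only [sP, if_neg h3, h4] using this
          · have := InL_u sP_sP uP_uP uP_rel true hc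
            rw [f_ge hab h2] at this
            simpa [uP] using this
      rcases hf with h | h | h
      · exact Or.inl (key _ h)
      · exact Or.inr (Or.inl (key _ h))
      · exact Or.inr (Or.inr (key _ h))

theorem laps_le_fib (hab : InP a b) (n : ℕ) : laps a b n ≤ 7 + 6 * Nat.fib (n + 6) := by
  classical
  obtain ⟨L1, h1, h1'⟩ := InL_card sP uP (some a) n
  obtain ⟨L2, h2, h2'⟩ := InL_card sP uP (some 0) n
  obtain ⟨L3, h3, h3'⟩ := InL_card sP uP (some b) n
  have h : (D a b n).ncard ≤ (L1 ∪ (L2 ∪ L3)).card := by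
    have := ncard_le_ncard_of_injOn (s := D a b n) (t := ((L1 ∪ (L2 ∪ L3) : Finset (Option ℝ)) :
      Set (Option ℝ))) (fun x : ℝ => some x) (by
        intro x hx
        rw [Finset.mem_coe, Finset.mem_union, Finset.mem_union]
        rcases D_InL hab n x hx with h | h | h
        · exact Or.inl (h1' _ h)
        · exact Or.inr (Or.inl (h2' _ h))
        · exact Or.inr (Or.inr (h3' _ h))) (by
        intro x _ y _ hxy
        exact Option.some_injective _ hxy) (Finset.finite_toSet _)
    rwa [ncard_coe_finset] at this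
  have h4 := Finset.card_union_le L1 (L2 ∪ L3)
  have h5 := Finset.card_union_le L2 L3
  unfold laps
  omega

theorem fib_le_pow (n : ℕ) : (Nat.fib n : ℝ) ≤ Real.goldenRatio ^ n ∧
    (Nat.fib (n + 1) : ℝ) ≤ Real.goldenRatio ^ (n + 1) := by
  induction n with
  | zero => simpa using Real.one_lt_goldenRatio.le
  | succ n ih =>
    refine ⟨ih.2, ?_⟩
    have h1 : (Nat.fib (n + 1 + 1) : ℝ) = Nat.fib n + Nat.fib (n + 1) := by
      exact_mod_cast Nat.fib_add_two
    have h2 : Real.goldenRatio ^ (n + 1 + 1) = Real.goldenRatio ^ n + Real.goldenRatio ^ (n + 1) := by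
      have := Real.goldenRatio_sq
      calc Real.goldenRatio ^ (n + 1 + 1) = Real.goldenRatio ^ n * Real.goldenRatio ^ 2 := by ring
        _ = Real.goldenRatio ^ n * (Real.goldenRatio + 1) := by rw [this]
        _ = _ := by ring
    rw [h1, h2]
    linarith [ih.1, ih.2]

/-- the upper bound -/
theorem entropy_le (hab : InP a b) {h : ℝ} (hh : IsEntropy a b h) :
    h ≤ Real.log Real.goldenRatio := by
  have hφ := Real.one_lt_goldenRatio
  have h1 : Tendsto (fun n : ℕ => Real.log (13 * (n + 1)) / n +
      Real.log Real.goldenRatio * (1 + 6 * (1 / (n : ℝ)))) atTop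
      (𝓝 (0 + Real.log Real.goldenRatio * (1 + 6 * 0))) := by
    apply Tendsto.add (tendsto_log_lin 13 (by norm_num))
    apply Tendsto.const_mul
    apply Tendsto.const_add
    apply Tendsto.const_mul
    exact tendsto_one_div_atTop_nhds_zero_nat
  rw [mul_zero, add_zero, mul_one, zero_add] at h1
  refine le_of_tendsto_of_tendsto hh h1 ?_
  filter_upwards [eventually_gt_atTop 0] with n hn
  have hn' : (0 : ℝ) < n := by exact_mod_cast hn
  have hl : (0 : ℝ) < laps a b n := by exact_mod_cast laps_pos a b n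
  have hp : (1 : ℝ) ≤ Real.goldenRatio ^ (n + 6) := one_le_pow₀ hφ.le
  have e1 : (laps a b n : ℝ) ≤ 13 * (n + 1) * Real.goldenRatio ^ (n + 6) := by
    have h2 : (laps a b n : ℝ) ≤ 7 + 6 * Nat.fib (n + 6) := by exact_mod_cast laps_le_fib hab n
    have h3 := (fib_le_pow (n + 6)).1
    nlinarith [mul_pos hn' (lt_of_lt_of_le one_pos hp)]
  have e2 : Real.log (laps a b n) ≤
      Real.log (13 * (n + 1)) + (n + 6 : ℕ) * Real.log Real.goldenRatio := by
    rw [← Real.log_pow, ← Real.log_mul (by positivity) (by positivity)]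
    exact Real.log_le_log hl e1
  have e3 : Real.log Real.goldenRatio * (1 + 6 * (1 / (n : ℝ))) =
      ((n + 6 : ℕ) * Real.log Real.goldenRatio) / n := by
    push_cast
    field_simp
  rw [e3, ← add_div]
  gcongr

end Pool.Agent.R660.CF
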